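import Mathlib

/-!
# Local Zariski closures: elementary operations
-/

set_option autoImplicit false

open MvPolynomial Topology

namespace Pool.Agent.L0h15.MZ

variable {K L : Type} [Field K] [NontriviallyNormedField L] (σ : K →+* L) {ι κ : Type}

/-- the polynomials vanishing at the `K`-points near `x` of the projective set defined by `S` -/
def LI (S : Set (MvPolynomial ι K)) (x : ι → L) : Set (MvPolynomial ι K) :=
  {f | ∃ U ∈ 𝓝 x, ∀ y : ι → K, y ≠ 0 → (∀ g ∈ S, eval y g = 0) →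
    (∃ c : L, c ≠ 0 ∧ (fun i => c * σ (y i)) ∈ U) → ∀ t : K, eval (t • y) f = 0}

/-- the set of all these ideals, for the points `x` of the projective set -/
def LIs (S : Set (MvPolynomial ι K)) : Set (Set (MvPolynomial ι K)) :=
  {J | ∃ x : ι → L, x ≠ 0 ∧ (∀ g ∈ S, eval₂ σ x g = 0) ∧ J = LI σ S x}

variable {σ}

theorem LI_congr {S S' : Set (MvPolynomial ι K)}
    (h : ∀ y : ι → K, y ≠ 0 → ((∀ g ∈ S, eval y g = 0) ↔ ∀ g ∈ S', eval y g = 0)) (x : ι → L) :
    LI σ S x = LI σ S' x := by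
  ext f
  constructor
  · rintro ⟨U, hU, hf⟩
    exact ⟨U, hU, fun y hy0 hyS => hf y hy0 ((h y hy0).2 hyS)⟩
  · rintro ⟨U, hU, hf⟩
    exact ⟨U, hU, fun y hy0 hyS => hf y hy0 ((h y hy0).1 hyS)⟩

/-- The finiteness depends only on the `K`-points. -/
theorem LIs_congr {S S' : Set (MvPolynomial ι K)}
    (h : ∀ y : ι → K, y ≠ 0 → ((∀ g ∈ S, eval y g = 0) ↔ ∀ g ∈ S', eval y g = 0))
    (h' : ∀ x : ι → L, x ≠ 0 → (∀ g ∈ S, eval₂ σ x g = 0) → ∀ g ∈ S', eval₂ σ x g = 0)
    (hfin : (LIs σ S').Finite) : (LIs σ S).Finite := by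
  refine hfin.subset ?_
  rintro J ⟨x, hx0, hxS, rfl⟩
  exact ⟨x, hx0, h' x hx0 hxS, LI_congr h x⟩

/-- the union of two projective sets -/
theorem LI_union {S A B : Set (MvPolynomial ι K)}
    (h : ∀ y : ι → K, y ≠ 0 → ((∀ g ∈ S, eval y g = 0) ↔
      (∀ g ∈ A, eval y g = 0) ∨ ∀ g ∈ B, eval y g = 0)) (x : ι → L) :
    LI σ S x = LI σ A x ∩ LI σ B x := by
  ext f
  constructor
  · rintro ⟨U, hU, hf⟩
    exact ⟨⟨U, hU, fun y hy0 hyS => hf y hy0 ((h y hy0).2 (Or.inl hyS))⟩,
      ⟨U, hU, fun y hy0 hyS => hf y hy0 ((h y hy0).2 (Or.inr hyS))⟩⟩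
  · rintro ⟨⟨U, hU, hf⟩, ⟨V, hV, hg⟩⟩
    refine ⟨U ∩ V, Filter.inter_mem hU hV, fun y hy0 hyS ⟨c, hc0, hc⟩ => ?_⟩
    rcases (h y hy0).1 hyS with h1 | h1
    · exact hf y hy0 h1 ⟨c, hc0, hc.1⟩
    · exact hg y hy0 h1 ⟨c, hc0, hc.2⟩

/-- homogeneous polynomials -/
theorem aeval_mul_left {R A : Type} [CommRing R] [CommRing A] [Algebra R A]
    {f : MvPolynomial ι R} {d : ℕ} (hf : f.IsHomogeneous d) (c : A) (v : ι → A) :
    aeval (fun i => c * v i) f = c ^ d * aeval v f := by
  rw [aeval_def, aeval_def, eval₂_eq, eval₂_eq, Finset.mul_sum]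
  refine Finset.sum_congr rfl fun m hm => ?_
  have h1 : ∑ i ∈ m.support, m i = d := by
    have h2 := hf (mem_support_iff.1 hm)
    rw [Finsupp.weight_apply] at h2
    simpa [Finsupp.sum] using h2
  rw [Finset.prod_congr rfl fun i _ => mul_pow _ _ _, Finset.prod_mul_distrib,
    Finset.prod_pow_eq_pow_sum, h1]
  ring

theorem eval_smul' {R : Type} [CommRing R]
    {f : MvPolynomial ι R} {d : ℕ} (hf : f.IsHomogeneous d) (c : R) (v : ι → R) :
    eval (c • v) f = c ^ d * eval v f := by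
  have h := aeval_mul_left (A := R) hf c v
  rw [aeval_eq_eval, aeval_eq_eval] at h
  exact h

theorem eval₂_mul_left {f : MvPolynomial ι K} {d : ℕ} (hf : f.IsHomogeneous d) (c : L)
    (v : ι → L) : eval₂ σ (fun i => c * v i) f = c ^ d * eval₂ σ v f := by
  have h := aeval_mul_left (R := L) (A := L) (hf.map σ) c v
  rw [aeval_eq_eval, aeval_eq_eval, eval_map, eval_map] at h
  exact h

theorem eval₂_map_eq (y : ι → K) (s : MvPolynomial ι K) :
    eval₂ σ (fun i => σ (y i)) s = σ (eval y s) := (eval₂_comp_left σ (RingHom.id K) y s).symm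

theorem continuous_eval₂ [Finite ι] (s : MvPolynomial ι K) :
    Continuous fun v : ι → L => eval₂ σ v s := by
  have h1 : (fun v : ι → L => eval₂ σ v s) = fun v => eval v (map σ s) := by
    funext v
    rw [eval_map]
  rw [h1]
  exact MvPolynomial.continuous_eval _

/-- no condition outside of the set -/
theorem LI_univ [Finite ι] {S : Set (MvPolynomial ι K)} {x : ι → L} {s : MvPolynomial ι K}
    (hs : s ∈ S) {d : ℕ} (hd : s.IsHomogeneous d) (hx : eval₂ σ x s ≠ 0) :
    LI σ S x = Set.univ := by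
  refine Set.eq_univ_of_forall fun f => ?_
  refine ⟨{v | eval₂ σ v s ≠ 0}, (continuous_eval₂ s).continuousAt.eventually_ne hx, ?_⟩
  rintro y - hyS ⟨c, -, hc⟩
  exfalso
  apply hc
  rw [eval₂_mul_left hd, eval₂_map_eq, hyS s hs, map_zero, mul_zero]

/-- the ideals at all points, not only at the points of the set -/
theorem LI_finite_all [Finite ι] {S : Set (MvPolynomial ι K)}
    (hS : ∀ s ∈ S, ∃ d : ℕ, s.IsHomogeneous d) (hfin : (LIs σ S).Finite) :
    {J | ∃ x : ι → L, x ≠ 0 ∧ J = LI σ S x}.Finite := by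
  refine (hfin.union (Set.finite_singleton Set.univ)).subset ?_
  rintro J ⟨x, hx0, rfl⟩
  by_cases h : ∀ g ∈ S, eval₂ σ x g = 0
  · exact Or.inl ⟨x, hx0, h, rfl⟩
  · push Not at h
    obtain ⟨s, hs, hsx⟩ := h
    obtain ⟨d, hd⟩ := hS s hs
    exact Or.inr (LI_univ hs hd hsx)

/-- the transfer of the finiteness along a map between the sets of ideals -/
theorem finite_of_map {A : Set (Set (MvPolynomial κ K))} {B : Set (Set (MvPolynomial ι K))}
    (Θ : Set (MvPolynomial κ K) → Set (MvPolynomial ι K)) (hA : A.Finite)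
    (h : ∀ J ∈ B, ∃ J' ∈ A, Θ J' = J) : B.Finite :=
  (hA.image Θ).subset fun J hJ => h J hJ

/-- renaming the variables -/
theorem LIs_rename (e : ι ≃ κ) {S : Set (MvPolynomial ι K)}
    (hfin : (LIs σ ((rename e) '' S)).Finite) : (LIs σ S).Finite := by
  refine finite_of_map (fun J' => {f | rename e f ∈ J'}) hfin ?_
  rintro J ⟨x, hx0, hxS, rfl⟩
  refine ⟨_, ⟨x ∘ e.symm, ?_, ?_, rfl⟩, ?_⟩
  · intro h
    apply hx0
    funext i
    have := congrFun h (e i)
    simpa using this
  · rintro _ ⟨g, hg, rfl⟩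
    rw [eval₂_rename]
    have h1 : (x ∘ e.symm) ∘ e = x := by
      funext i
      simp
    rw [h1]
    exact hxS g hg
  · -- the comparison of the ideals
    have hcomp : ∀ (y : ι → K) (g : MvPolynomial ι K), eval (y ∘ e.symm) (rename e g) =
        eval y g := by
      intro y g
      rw [eval_rename]
      congr 2
      funext i
      simp
    ext f
    constructor
    · rintro ⟨U, hU, hf⟩
      have hcont : Continuous fun v : ι → L => v ∘ e.symm :=
        continuous_pi fun j => continuous_apply _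
      refine ⟨(fun v : ι → L => v ∘ e.symm) ⁻¹' U, hcont.continuousAt hU, ?_⟩
      rintro y hy0 hyS ⟨c, hc0, hc⟩ t
      have h1 := hf (y ∘ e.symm) (fun h => hy0 (by
        funext i
        have := congrFun h (e i)
        simpa using this)) (by
        rintro _ ⟨g, hg, rfl⟩
        rw [hcomp]
        exact hyS g hg) ⟨c, hc0, hc⟩ t
      rw [show t • (y ∘ e.symm) = (t • y) ∘ e.symm from rfl, hcomp] at h1
      exact h1
    · rintro ⟨U, hU, hf⟩
      have hcont : Continuous fun v : κ → L => v ∘ e :=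
        continuous_pi fun j => continuous_apply _
      refine ⟨(fun v : κ → L => v ∘ e) ⁻¹' U, hcont.continuousAt (by
        have h1 : (x ∘ e.symm) ∘ e = x := by
          funext i
          simp
        rw [h1]
        exact hU), ?_⟩
      rintro y hy0 hyS ⟨c, hc0, hc⟩ t
      have h1 := hf (y ∘ e) (fun h => hy0 (by
        funext i
        have := congrFun h (e.symm i)
        simpa using this)) (by
        intro g hg
        have h2 := hyS _ ⟨g, hg, rfl⟩
        rwa [eval_rename] at h2) ⟨c, hc0, hc⟩ t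
      rw [eval_rename]
      exact h1

end Pool.Agent.L0h15.MZ
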