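import Mathlib
import Pool.Agent.L0h15.MZ.Basic
import Pool.Agent.TH729.CV.Trans
import Pool.Agent.W279.Tri.LocComp

/-!
# From irreducible quartic forms over `ℚ` to systems of quadratic forms
-/

set_option autoImplicit false

open MvPolynomial Topology

namespace Pool.Agent.L0h15.MZ

section ideals

variable {K L : Type} [Field K] [NontriviallyNormedField L] {σ : K →+* L} {ι κ : Type}

/-- A set of polynomials can be replaced by a finite subset. -/
theorem exists_finset [Finite ι] (S : Set (MvPolynomial ι K)) :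
    ∃ S₀ : Finset (MvPolynomial ι K), (S₀ : Set (MvPolynomial ι K)) ⊆ S ∧
      ∀ (A : Type) [CommRing A] (τ : K →+* A) (y : ι → A),
        (∀ g ∈ S₀, eval₂ τ y g = 0) → ∀ g ∈ S, eval₂ τ y g = 0 := by
  have h1 : (Ideal.span S).FG := IsNoetherian.noetherian _
  obtain ⟨S₀, h2, h3⟩ := Submodule.fg_span_iff_fg_span_finset_subset S |>.1 h1
  refine ⟨S₀, h2, fun A _ τ y h g hg => ?_⟩
  have h4 : Ideal.span (S₀ : Set (MvPolynomial ι K)) ≤ RingHom.ker (eval₂Hom τ y) :=
    Ideal.span_le.2 fun s hs => h s hs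
  have h5 : g ∈ Ideal.span S := Ideal.subset_span hg
  have h6 : Ideal.span S = Ideal.span (S₀ : Set (MvPolynomial ι K)) := h3
  rw [h6] at h5
  exact h4 h5

end ideals

section factor

variable {R : Type} [CommRing R] [IsDomain R] {ι : Type}

/-- the scaling map -/
noncomputable def scal : MvPolynomial ι R →ₐ[R] Polynomial (MvPolynomial ι R) :=
  aeval fun i => Polynomial.C (X i) * Polynomial.X

omit [IsDomain R] in
theorem scal_hom {f : MvPolynomial ι R} {n : ℕ} (hf : f.IsHomogeneous n) :
    scal f = Polynomial.C f * Polynomial.X ^ n := by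
  conv_lhs => rw [f.as_sum]
  conv_rhs => rw [f.as_sum]
  rw [map_sum, map_sum, Finset.sum_mul]
  apply Finset.sum_congr rfl
  intro d hd
  have hdeg : d.degree = n := by
    by_contra h
    exact (mem_support_iff.1 hd) (hf.coeff_eq_zero h)
  rw [scal, aeval_monomial, Finsupp.prod, ← hdeg, Finsupp.degree]
  rw [monomial_eq, Finsupp.prod]
  simp only [mul_pow, Finset.prod_mul_distrib, map_mul, map_prod, map_pow]
  rw [Finset.prod_pow_eq_pow_sum, ← mul_assoc]
  rfl

omit [IsDomain R] in
theorem coeff_scal (f : MvPolynomial ι R) (n : ℕ) :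
    (scal f).coeff n = homogeneousComponent n f := by
  conv_lhs => rw [← sum_homogeneousComponent f]
  rw [map_sum, Polynomial.finsetSum_coeff]
  have h1 : ∀ i, (scal (homogeneousComponent i f)).coeff n =
      if n = i then homogeneousComponent i f else 0 := by
    intro i
    rw [scal_hom (homogeneousComponent_isHomogeneous i f), Polynomial.coeff_C_mul_X_pow]
  simp_rw [h1]
  rw [Finset.sum_ite_eq]
  split_ifs with h
  · rfl
  · rw [homogeneousComponent_eq_zero]
    rw [Finset.mem_range] at h
    omega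

theorem scal_ne_zero {f : MvPolynomial ι R} (hf : f ≠ 0) : scal f ≠ 0 := by
  intro h
  apply hf
  rw [← sum_homogeneousComponent f]
  apply Finset.sum_eq_zero
  intro i _
  rw [← coeff_scal, h, Polynomial.coeff_zero]

theorem isHomogeneous_of_scal {f : MvPolynomial ι R}
    (h : (scal f).natDegree = (scal f).natTrailingDegree) :
    f.IsHomogeneous (scal f).natDegree := by
  have h1 : ∀ n, n ≠ (scal f).natDegree → homogeneousComponent n f = 0 := by
    intro n hn
    rw [← coeff_scal]
    rcases lt_or_gt_of_ne hn with h2 | h2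
    · rw [h] at h2
      exact Polynomial.coeff_eq_zero_of_lt_natTrailingDegree h2
    · exact Polynomial.coeff_eq_zero_of_natDegree_lt h2
  have h2 : f = homogeneousComponent (scal f).natDegree f := by
    conv_lhs => rw [← sum_homogeneousComponent f]
    by_cases h3 : (scal f).natDegree ∈ Finset.range (f.totalDegree + 1)
    · rw [Finset.sum_eq_single_of_mem _ h3]
      intro n _ hn
      exact h1 n hn
    · rw [Finset.sum_eq_zero, homogeneousComponent_eq_zero]
      · rw [Finset.mem_range] at h3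
        omega
      · intro n hn
        apply h1
        rintro rfl
        exact h3 hn
  conv_lhs => rw [h2]
  exact homogeneousComponent_isHomogeneous _ f

/-- Factors of homogeneous polynomials are homogeneous. -/
theorem isHomogeneous_of_mul {n : ℕ} {f g : MvPolynomial ι R} (h0 : f * g ≠ 0)
    (h : (f * g).IsHomogeneous n) :
    ∃ a b, f.IsHomogeneous a ∧ g.IsHomogeneous b ∧ a + b = n := by
  have hf : f ≠ 0 := left_ne_zero_of_mul h0
  have hg : g ≠ 0 := right_ne_zero_of_mul h0
  have h1 := scal_hom h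
  rw [map_mul] at h1
  have h2 : (scal f * scal g).natDegree = n := by
    rw [h1, Polynomial.natDegree_C_mul_X_pow _ _ h0]
  have h3 : (scal f * scal g).natTrailingDegree = n := by
    rw [h1, Polynomial.C_mul_X_pow_eq_monomial, Polynomial.natTrailingDegree_monomial h0]
  rw [Polynomial.natDegree_mul (scal_ne_zero hf) (scal_ne_zero hg)] at h2
  rw [Polynomial.natTrailingDegree_mul (scal_ne_zero hf) (scal_ne_zero hg)] at h3
  have h4 := Polynomial.natTrailingDegree_le_natDegree (scal f)
  have h5 := Polynomial.natTrailingDegree_le_natDegree (scal g)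
  exact ⟨_, _, isHomogeneous_of_scal (by omega), isHomogeneous_of_scal (by omega), h2⟩

end factor

section quartic

variable {L : Type} [NontriviallyNormedField L] [CompleteSpace L] {σ : ℚ →+* L}
  (hσ : DenseRange σ)

include hσ in
/-- degree at most three: the theorem of helper729 -/
theorem LIs_cubic {n d : ℕ} {F : MvPolynomial (Fin (n + 1)) ℚ} (hF : F.IsHomogeneous d)
    (hd : d ≤ 3) : (LIs σ {F}).Finite := by
  have : CharZero L := charZero_of_injective_ringHom σ.injective
  have : ProperSpace L := Pool.Agent.W279.Tri.properSpace_of_denseRange σ hσ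
  refine (Pool.Agent.TH729.CV.fin_ideals σ hσ hF hd).subset ?_
  rintro J ⟨x, hx0, hxS, rfl⟩
  refine ⟨x, hx0, hxS F rfl, ?_⟩
  ext f
  constructor
  · rintro ⟨U, hU, hf⟩
    exact ⟨U, hU, fun y hy0 hyS => hf y hy0 (by
      rintro g rfl
      exact hyS)⟩
  · rintro ⟨U, hU, hf⟩
    exact ⟨U, hU, fun y hy0 hyS => hf y hy0 (hyS F rfl)⟩

variable (H : ∀ (n : ℕ) (F : MvPolynomial (Fin (n + 1)) ℚ), F.IsHomogeneous 4 → Irreducible F →
    (LIs σ {F}).Finite)

theorem isUnit_of_isHomogeneous_zero {ι : Type} {F : MvPolynomial ι ℚ} (hF : F.IsHomogeneous 0)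
    (h0 : F ≠ 0) : IsUnit F := by
  have h1 : F.totalDegree = 0 := hF.totalDegree h0
  rw [totalDegree_eq_zero_iff_eq_C] at h1
  rw [h1]
  refine (isUnit_iff_ne_zero.2 ?_).map C
  intro h
  rw [h, C_0] at h1
  exact h0 h1

include hσ H in
/-- all quartic forms in `n + 1` variables -/
theorem LIs_quartic_fin {n : ℕ} {F : MvPolynomial (Fin (n + 1)) ℚ} (hF : F.IsHomogeneous 4) :
    (LIs σ {F}).Finite := by
  by_cases hF0 : F = 0
  · rw [hF0]
    exact LIs_cubic hσ (isHomogeneous_zero _ _ 0) (by norm_num)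
  by_cases hirr : Irreducible F
  · exact H n F hF hirr
  have hnu : ¬ IsUnit F := by
    intro h
    obtain ⟨c, hc, hcF⟩ := MvPolynomial.isUnit_iff_eq_C_of_isReduced.1 h
    have h1 : F.totalDegree = 4 := hF.totalDegree hF0
    rw [hcF, totalDegree_C] at h1
    omega
  obtain ⟨A, B, hAB, hA, hB⟩ : ∃ A B, F = A * B ∧ ¬ IsUnit A ∧ ¬ IsUnit B := by
    by_contra h
    push Not at h
    refine hirr ⟨hnu, fun A B hAB => ?_⟩
    by_cases hA : IsUnit A
    · exact Or.inl hA
    · exact Or.inr (h A B hAB hA)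
  have h0 : A * B ≠ 0 := hAB ▸ hF0
  obtain ⟨a, b, ha, hb, hab⟩ := isHomogeneous_of_mul h0 (hAB ▸ hF)
  have ha1 : a ≠ 0 := by
    rintro rfl
    exact hA (isUnit_of_isHomogeneous_zero ha (left_ne_zero_of_mul h0))
  have hb1 : b ≠ 0 := by
    rintro rfl
    exact hB (isUnit_of_isHomogeneous_zero hb (right_ne_zero_of_mul h0))
  have hA' := LI_finite_all (S := {A}) (by
    rintro s rfl
    exact ⟨a, ha⟩) (LIs_cubic hσ ha (by omega))
  have hB' := LI_finite_all (S := {B}) (by
    rintro s rfl
    exact ⟨b, hb⟩) (LIs_cubic hσ hb (by omega))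
  refine (Set.Finite.image2 (fun I J => I ∩ J) hA' hB').subset ?_
  rintro J ⟨x, hx0, -, rfl⟩
  refine ⟨_, ⟨x, hx0, rfl⟩, _, ⟨x, hx0, rfl⟩, ?_⟩
  refine (LI_union (fun y _ => ?_) x).symm
  simp only [Set.mem_singleton_iff, forall_eq]
  rw [hAB, map_mul, mul_eq_zero]

include hσ H in
/-- all quartic forms -/
theorem LIs_quartic {ι : Type} [Finite ι] {F : MvPolynomial ι ℚ} (hF : F.IsHomogeneous 4) :
    (LIs σ {F}).Finite := by
  have := Fintype.ofFinite ι
  rcases Nat.eq_zero_or_eq_succ_pred (Fintype.card ι) with h | h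
  · refine Set.Finite.subset Set.finite_empty ?_
    rintro J ⟨x, hx0, -, -⟩
    have : IsEmpty ι := Fintype.card_eq_zero_iff.1 h
    exact absurd (Subsingleton.elim _ _) hx0
  · have e : ι ≃ Fin ((Fintype.card ι).pred + 1) := (Fintype.equivFinOfCardEq h)
    refine LIs_rename e ?_
    rw [Set.image_singleton]
    exact LIs_quartic_fin hσ H (hF.rename_isHomogeneous)

include hσ H in
/-- all systems of quadratic forms -/
theorem LIs_quadratic {ι : Type} [Finite ι] {S : Set (MvPolynomial ι ℚ)}
    (hS : ∀ s ∈ S, s.IsHomogeneous 2) : (LIs σ S).Finite := by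
  obtain ⟨S₀, h1, h2⟩ := exists_finset S
  have hF : (∑ s ∈ S₀, s ^ 2).IsHomogeneous 4 := by
    refine IsHomogeneous.sum _ _ _ fun s hs => ?_
    exact (hS s (h1 hs)).pow 2
  refine LIs_congr (S' := {∑ s ∈ S₀, s ^ 2}) (fun y hy0 => ?_) (fun x hx0 hxS => ?_)
    (LIs_quartic hσ H hF)
  · simp only [Set.mem_singleton_iff, forall_eq]
    rw [map_sum]
    constructor
    · intro h
      refine Finset.sum_eq_zero fun s hs => ?_
      rw [map_pow, h s (h1 hs)]
      norm_num
    · intro h
      rw [Finset.sum_eq_zero_iff_of_nonneg fun s _ => by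
        rw [map_pow]
        exact sq_nonneg _] at h
      refine h2 ℚ (RingHom.id ℚ) y fun s hs => ?_
      have h3 := h s hs
      rw [map_pow] at h3
      exact pow_eq_zero_iff (two_ne_zero) |>.1 h3
  · rintro g rfl
    rw [← coe_eval₂Hom, map_sum]
    refine Finset.sum_eq_zero fun s hs => ?_
    rw [map_pow, coe_eval₂Hom, hxS s (h1 hs)]
    exact zero_pow two_ne_zero

end quartic

end Pool.Agent.L0h15.MZ
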