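import Mathlib
import Pool.Agent.L0h15.MZ.Quart

/-!
# The Veronese step and arbitrary systems of forms
-/

set_option autoImplicit false

open MvPolynomial Topology

namespace Pool.Agent.L0h15.MZ

section components

variable {K : Type} [Field K] {ι : Type}

theorem eval_smul_sum (f : MvPolynomial ι K) (y : ι → K) (t : K) :
    eval (t • y) f = ∑ d ∈ Finset.range (f.totalDegree + 1),
      t ^ d * eval y (homogeneousComponent d f) := by
  conv_lhs => rw [← sum_homogeneousComponent f]
  rw [map_sum]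
  exact Finset.sum_congr rfl fun d _ => eval_smul' (homogeneousComponent_isHomogeneous d f) t y

/-- a polynomial which vanishes at infinitely many multiples of a point -/
theorem comp_eq_zero (f : MvPolynomial ι K) (y : ι → K) {T : Set K} (hT : T.Infinite)
    (h : ∀ t ∈ T, eval (t • y) f = 0) (d : ℕ) : eval y (homogeneousComponent d f) = 0 := by
  set P : Polynomial K := ∑ d ∈ Finset.range (f.totalDegree + 1),
    Polynomial.C (eval y (homogeneousComponent d f)) * Polynomial.X ^ d with hP
  have h1 : ∀ t, P.eval t = eval (t • y) f := by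
    intro t
    rw [eval_smul_sum, hP, Polynomial.eval_finsetSum]
    refine Finset.sum_congr rfl fun d _ => ?_
    rw [Polynomial.eval_mul, Polynomial.eval_C, Polynomial.eval_pow, Polynomial.eval_X, mul_comm]
  have h2 : P = 0 := Polynomial.eq_zero_of_infinite_isRoot P
    (hT.mono fun t ht => by
      change P.eval t = 0
      rw [h1, h t ht])
  by_cases hd : d ∈ Finset.range (f.totalDegree + 1)
  · have h3 : P.coeff d = eval y (homogeneousComponent d f) := by
      rw [hP, Polynomial.finsetSum_coeff]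
      simp_rw [Polynomial.coeff_C_mul_X_pow]
      rw [Finset.sum_ite_eq, if_pos hd]
    rw [← h3, h2, Polynomial.coeff_zero]
  · rw [homogeneousComponent_eq_zero, map_zero]
    rw [Finset.mem_range] at hd
    omega

theorem forall_smul_iff [Infinite K] (f : MvPolynomial ι K) (y : ι → K) :
    (∀ t : K, eval (t • y) f = 0) ↔ ∀ d, eval y (homogeneousComponent d f) = 0 := by
  constructor
  · intro h
    exact comp_eq_zero f y Set.infinite_univ fun t _ => h t
  · intro h t
    rw [eval_smul_sum]
    exact Finset.sum_eq_zero fun d _ => by rw [h, mul_zero]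

end components

section veronese

variable {K : Type} [Field K] {ι : Type}

/-- the products of two variables -/
noncomputable def ver : MvPolynomial (ι × ι) K →ₐ[K] MvPolynomial ι K :=
  aeval fun p => X p.1 * X p.2

/-- the products of the coordinates -/
def vv {A : Type} [Mul A] (y : ι → A) : ι × ι → A := fun p => y p.1 * y p.2

theorem eval₂_vv {A : Type} [CommRing A] (τ : K →+* A) (y : ι → A)
    (h : MvPolynomial (ι × ι) K) : eval₂ τ (vv y) h = eval₂ τ y (ver h) := by
  rw [ver, aeval_def, ← coe_eval₂Hom τ y, hom_eval₂]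
  congr 1
  · ext a
    simp
  · funext p
    simp [vv]

theorem eval_vv (y : ι → K) (h : MvPolynomial (ι × ι) K) :
    eval (vv y) h = eval y (ver h) := eval₂_vv (RingHom.id K) y h

theorem exists_lift_monomial (d : ℕ) : ∀ m : ι →₀ ℕ, m.degree = 2 * d →
    ∃ P : MvPolynomial (ι × ι) K, P.IsHomogeneous d ∧ ver P = monomial m 1 := by
  induction d with
  | zero =>
    intro m hm
    have h1 : m = 0 := by
      rw [← Finsupp.degree_eq_zero_iff]
      omega
    exact ⟨1, isHomogeneous_one _ _, by rw [map_one, h1]; rfl⟩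
  | succ d ih =>
    intro m hm
    have key : ∀ (m : ι →₀ ℕ) (e : ℕ), m.degree = e + 1 →
        ∃ (i : ι) (m' : ι →₀ ℕ), m = Finsupp.single i 1 + m' ∧ m'.degree = e := by
      intro m e hme
      have h1 : m ≠ 0 := by
        rintro rfl
        rw [map_zero] at hme
        omega
      obtain ⟨i, hi⟩ := Finsupp.ne_iff.1 h1
      have h2 : Finsupp.single i 1 ≤ m := by
        rw [Finsupp.single_le_iff]
        have : m i ≠ 0 := by simpa using hi
        omega
      refine ⟨i, m - Finsupp.single i 1, (add_tsub_cancel_of_le h2).symm, ?_⟩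
      have h3 : m.degree = (Finsupp.single i 1).degree + (m - Finsupp.single i 1).degree := by
        rw [← map_add, add_tsub_cancel_of_le h2]
      rw [Finsupp.degree_single] at h3
      omega
    obtain ⟨i, m₁, h1, h2⟩ := key m (2 * d + 1) (by omega)
    obtain ⟨j, m₂, h3, h4⟩ := key m₁ (2 * d) h2
    obtain ⟨P, hP, hP'⟩ := ih m₂ h4
    refine ⟨X (i, j) * P, ?_, ?_⟩
    · rw [add_comm]
      exact (isHomogeneous_X _ _).mul hP
    · rw [map_mul, hP', h1, h3]
      simp only [ver, aeval_X]
      rw [X, X, monomial_mul, monomial_mul, add_assoc]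
      simp

/-- Forms of degree `2d` are forms of degree `d` in the products of two variables. -/
theorem exists_lift {d : ℕ} {h : MvPolynomial ι K} (hh : h.IsHomogeneous (2 * d)) :
    ∃ P : MvPolynomial (ι × ι) K, P.IsHomogeneous d ∧ ver P = h := by
  classical
  have h1 : ∀ m ∈ h.support, ∃ P : MvPolynomial (ι × ι) K, P.IsHomogeneous d ∧
      ver P = monomial m 1 := by
    intro m hm
    apply exists_lift_monomial
    by_contra h'
    exact (mem_support_iff.1 hm) (hh.coeff_eq_zero h')
  choose! P hP1 hP2 using h1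
  refine ⟨∑ m ∈ h.support, C (coeff m h) * P m, ?_, ?_⟩
  · refine IsHomogeneous.sum _ _ _ fun m hm => ?_
    rw [← zero_add d]
    exact (isHomogeneous_C _ _).mul (hP1 m hm)
  · rw [map_sum]
    conv_rhs => rw [h.as_sum]
    refine Finset.sum_congr rfl fun m hm => ?_
    rw [map_mul, hP2 m hm, ver, algHom_C, algebraMap_eq, C_mul_monomial, mul_one]

/-- the system of forms of half the degree -/
def half (S : Set (MvPolynomial ι K)) (e : ℕ) : Set (MvPolynomial (ι × ι) K) :=
  {h | h.IsHomogeneous e ∧ (ver h ∈ S ∨ ver h = 0)}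

theorem half_point {S : Set (MvPolynomial ι K)} {e : ℕ} (he : 2 ≤ e)
    (hS : ∀ s ∈ S, s.IsHomogeneous (2 * e)) {z : ι × ι → K} (hz0 : z ≠ 0)
    (hz : ∀ h ∈ half S e, eval z h = 0) {a : ι} :
    (∀ i j, z (i, j) * z (a, a) = z (a, i) * z (a, j)) ∧
    (z (a, a) ≠ 0 → (∀ s ∈ S, eval (fun j => z (a, j)) s = 0)) ∧
    ∃ b, z (b, b) ≠ 0 := by
  classical
  obtain ⟨p, hp⟩ := Function.ne_iff.1 hz0
  have hp' : z p ≠ 0 := hp
  -- the relations
  have h1 : ∀ i j k l, z (i, j) * z (k, l) = z (i, k) * z (j, l) := by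
    intro i j k l
    have h2 := hz ((X (i, j) * X (k, l) - X (i, k) * X (j, l)) * X p ^ (e - 2)) ⟨by
      have h3 : (X (i, j) * X (k, l) - X (i, k) * X (j, l) :
          MvPolynomial (ι × ι) K).IsHomogeneous 2 :=
        ((isHomogeneous_X _ _).mul (isHomogeneous_X _ _)).sub
          ((isHomogeneous_X _ _).mul (isHomogeneous_X _ _))
      have h4 := h3.mul ((isHomogeneous_X K p).pow (e - 2))
      rw [show 2 + 1 * (e - 2) = e by omega] at h4
      exact h4, Or.inr (by
      simp only [ver, map_mul, map_sub, aeval_X, map_pow]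
      ring)⟩
    simp only [map_mul, map_sub, eval_X, map_pow, mul_eq_zero] at h2
    rcases h2 with h2 | h2
    · exact sub_eq_zero.1 h2
    · exact absurd h2 (pow_ne_zero _ hp')
  have h1' : ∀ i j, z (i, j) = z (j, i) := by
    intro i j
    have h2 := hz ((X (i, j) - X (j, i)) * X p ^ (e - 1)) ⟨by
      have h3 : (X (i, j) - X (j, i) : MvPolynomial (ι × ι) K).IsHomogeneous 1 :=
        (isHomogeneous_X _ _).sub (isHomogeneous_X _ _)
      have h4 := h3.mul ((isHomogeneous_X K p).pow (e - 1))
      rw [show 1 + 1 * (e - 1) = e by omega] at h4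
      exact h4, Or.inr (by
      simp only [ver, map_mul, map_sub, aeval_X, map_pow]
      ring)⟩
    simp only [map_mul, map_sub, eval_X, map_pow, mul_eq_zero] at h2
    rcases h2 with h2 | h2
    · exact sub_eq_zero.1 h2
    · exact absurd h2 (pow_ne_zero _ hp')
  have h3 : ∀ i j, z (i, j) * z (a, a) = z (a, i) * z (a, j) := by
    intro i j
    rw [h1 i j a a, h1' i a, h1' j a]
  refine ⟨h3, fun ha s hs => ?_, p.1, fun h => ?_⟩
  · obtain ⟨P, hP1, hP2⟩ := exists_lift (hS s hs)
    have h4 := hz P ⟨hP1, Or.inl (hP2 ▸ hs)⟩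
    have h5 : vv (fun j => z (a, j)) = z (a, a) • z := by
      funext q
      change z (a, q.1) * z (a, q.2) = z (a, a) * z (q.1, q.2)
      rw [← h3, mul_comm]
    rw [← hP2, ← eval_vv, h5, eval_smul' hP1, h4, mul_zero]
  · have h4 := h1 p.1 p.1 p.2 p.2
    rw [h, zero_mul] at h4
    have h5 : z (p.1, p.2) ≠ 0 := hp'
    exact mul_ne_zero h5 h5 h4.symm

end veronese

section step

variable {K L : Type} [Field K] [NontriviallyNormedField L] {σ : K →+* L} {ι : Type}

theorem vv_ne_zero {A : Type} [Field A] {y : ι → A} (hy : y ≠ 0) : vv y ≠ 0 := by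
  intro h
  apply hy
  funext i
  have := congrFun h (i, i)
  exact mul_self_eq_zero.1 this

/-- the Veronese step -/
theorem LIs_double [Infinite K] [Finite ι] {S : Set (MvPolynomial ι K)} {e : ℕ} (he : 2 ≤ e)
    (hS : ∀ s ∈ S, s.IsHomogeneous (2 * e)) (hfin : (LIs σ (half S e)).Finite) :
    (LIs σ S).Finite := by
  refine finite_of_map (fun J' => {f | ∀ (d : ℕ) (i : ι) (P : MvPolynomial (ι × ι) K),
    P.IsHomogeneous d → ver P = X i ^ d * homogeneousComponent d f → P ∈ J'}) hfin ?_
  rintro J ⟨x, hx0, hxS, rfl⟩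
  refine ⟨_, ⟨vv x, vv_ne_zero hx0, ?_, rfl⟩, ?_⟩
  · rintro h ⟨-, hh | hh⟩
    · rw [eval₂_vv, hxS _ hh]
    · rw [eval₂_vv, hh, eval₂_zero]
  obtain ⟨i₀, hi₀⟩ := Function.ne_iff.1 hx0
  have hi : x i₀ ≠ 0 := hi₀
  ext f
  constructor
  · intro hf
    -- every point of the set is near to a point of the Veronese image
    have hlift : ∀ (d : ℕ) (i : ι), ∃ P : MvPolynomial (ι × ι) K, P.IsHomogeneous d ∧
        ver P = X i ^ d * homogeneousComponent d f := by
      intro d i
      apply exists_lift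
      have h1 := ((isHomogeneous_X K i).pow d).mul (homogeneousComponent_isHomogeneous d f)
      rw [show 1 * d + d = 2 * d by omega] at h1
      exact h1
    choose P hP1 hP2 using hlift
    have hU : ∀ (d : ℕ) (i : ι), ∃ U ∈ 𝓝 (vv x), ∀ y : ι × ι → K, y ≠ 0 →
        (∀ g ∈ half S e, eval y g = 0) →
        (∃ c : L, c ≠ 0 ∧ (fun i => c * σ (y i)) ∈ U) → ∀ t : K, eval (t • y) (P d i) = 0 :=
      fun d i => hf d i (P d i) (hP1 d i) (hP2 d i)
    choose U hU1 hU2 using hU
    have hcont : Continuous (fun u : ι → L => vv u) := by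
      refine continuous_pi fun p => ?_
      exact (continuous_apply p.1).mul (continuous_apply p.2)
    have hV : (⋂ d ∈ Finset.range (f.totalDegree + 1), ⋂ i, U d i) ∈ 𝓝 (vv x) := by
      rw [Filter.biInter_finset_mem]
      intro d _
      rw [Filter.iInter_mem]
      intro i
      exact hU1 d i
    refine ⟨vv ⁻¹' (⋂ d ∈ Finset.range (f.totalDegree + 1), ⋂ i, U d i),
      hcont.continuousAt hV, ?_⟩
    rintro y hy0 hyS ⟨c, hc0, hc⟩
    rw [forall_smul_iff]
    intro d
    by_cases hd : d ∈ Finset.range (f.totalDegree + 1)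
    · obtain ⟨i, hyi⟩ := Function.ne_iff.1 hy0
      have hyi' : y i ≠ 0 := hyi
      have h1 : (fun p => c ^ 2 * σ (vv y p)) ∈ U d i := by
        have h2 : vv (fun i => c * σ (y i)) ∈ U d i := by
          have h3 := Set.mem_iInter₂.1 hc d hd
          exact Set.mem_iInter.1 h3 i
        convert h2 using 1
        funext p
        simp only [vv, map_mul]
        ring
      have h2 := hU2 d i (vv y) (vv_ne_zero hy0) (by
        rintro h ⟨-, hh | hh⟩
        · rw [eval_vv, hyS _ hh]
        · rw [eval_vv, hh, map_zero]) ⟨c ^ 2, pow_ne_zero 2 hc0, h1⟩ 1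
      rw [one_smul, eval_vv, hP2, map_mul, map_pow, eval_X, mul_eq_zero] at h2
      rcases h2 with h2 | h2
      · exact absurd h2 (pow_ne_zero _ hyi')
      · exact h2
    · rw [homogeneousComponent_eq_zero, map_zero]
      rw [Finset.mem_range] at hd
      omega
  · rintro ⟨U, hU, hf⟩ d i P hP1 hP2
    -- the neighbourhood of the image
    have hg : Continuous (fun w : ι × ι → L => fun j => (x i₀)⁻¹ * w (i₀, j)) :=
      continuous_pi fun j => continuous_const.mul (continuous_apply _)
    refine ⟨{w | w (i₀, i₀) ≠ 0 ∧ (fun j => (x i₀)⁻¹ * w (i₀, j)) ∈ U}, ?_, ?_⟩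
    · refine Filter.inter_mem ?_ ?_
      · exact (continuous_apply (i₀, i₀)).continuousAt.eventually_ne (mul_ne_zero hi hi)
      · refine hg.continuousAt ?_
        have h1 : (fun j => (x i₀)⁻¹ * vv x (i₀, j)) = x := by
          funext j
          simp only [vv]
          rw [← mul_assoc, inv_mul_cancel₀ hi, one_mul]
        rw [h1]
        exact hU
    · rintro z hz0 hzS ⟨c, hc0, hc1, hc2⟩ t
      obtain ⟨h1, h2, -⟩ := half_point he hS hz0 hzS (a := i₀)
      have hz1 : z (i₀, i₀) ≠ 0 := by
        intro h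
        apply hc1
        simp [h]
      have h3 := hf (fun j => z (i₀, j)) (fun h => hz1 (congrFun h i₀)) (h2 hz1)
        ⟨(x i₀)⁻¹ * c, mul_ne_zero (inv_ne_zero hi) hc0, by
          have h4 : (fun j => (x i₀)⁻¹ * c * σ (z (i₀, j))) =
              fun j => (x i₀)⁻¹ * (c * σ (z (i₀, j))) := by
            funext j
            ring
          rw [h4]
          exact hc2⟩
      rw [forall_smul_iff] at h3
      have h5 : vv (fun j => z (i₀, j)) = z (i₀, i₀) • z := by
        funext q
        change z (i₀, q.1) * z (i₀, q.2) = z (i₀, i₀) * z (q.1, q.2)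
        rw [← h1, mul_comm]
      have h6 : z = (z (i₀, i₀))⁻¹ • vv (fun j => z (i₀, j)) := by
        rw [h5, smul_smul, inv_mul_cancel₀ hz1, one_smul]
      rw [h6, smul_smul, eval_smul' hP1, eval_vv, hP2, map_mul, h3 d, mul_zero, mul_zero]

/-- systems of forms of degree `2 ^ k` -/
theorem LIs_pow_two [Infinite K]
    (H : ∀ (κ : Type) [Finite κ] (S : Set (MvPolynomial κ K)), (∀ s ∈ S, s.IsHomogeneous 2) →
      (LIs σ S).Finite) (k : ℕ) :
    ∀ (κ : Type) [Finite κ] (S : Set (MvPolynomial κ K)),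
      (∀ s ∈ S, s.IsHomogeneous (2 ^ (k + 1))) → (LIs σ S).Finite := by
  induction k with
  | zero => 
    intro κ _ S hS
    exact H κ S (by simpa using hS)
  | succ k ih =>
    intro κ _ S hS
    have h1 : 2 ≤ 2 ^ (k + 1) := by
      rw [pow_succ]
      have := Nat.one_le_two_pow (n := k)
      omega
    refine LIs_double (e := 2 ^ (k + 1)) h1 (fun s hs => ?_) (ih (κ × κ) _ fun h hh => hh.1)
    have h2 := hS s hs
    rwa [pow_succ (n := k + 1), mul_comm] at h2

/-- arbitrary systems of forms -/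
theorem LIs_all [Infinite K]
    (H : ∀ (κ : Type) [Finite κ] (S : Set (MvPolynomial κ K)), (∀ s ∈ S, s.IsHomogeneous 2) →
      (LIs σ S).Finite)
    [Finite ι] {S : Set (MvPolynomial ι K)} (hS : ∀ s ∈ S, ∃ d : ℕ, s.IsHomogeneous d) :
    (LIs σ S).Finite := by
  classical
  obtain ⟨S₀, h1, h2⟩ := exists_finset S
  choose! D hD using hS
  obtain ⟨k, hk⟩ : ∃ k : ℕ, ∀ s ∈ S₀, D s ≤ 2 ^ (k + 1) := by
    refine ⟨S₀.sup D, fun s hs => ?_⟩
    have h3 : D s ≤ S₀.sup D := Finset.le_sup hs
    have h4 : S₀.sup D < 2 ^ (S₀.sup D) := Nat.lt_two_pow_self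
    have h5 : 2 ^ (S₀.sup D) ≤ 2 ^ (S₀.sup D + 1) := Nat.pow_le_pow_right (by norm_num) (by omega)
    omega
  refine LIs_congr (S' := {g | ∃ s ∈ S₀, ∃ i : ι, g = X i ^ (2 ^ (k + 1) - D s) * s})
    (fun y hy0 => ?_) (fun x hx0 hxS => ?_) (LIs_pow_two H k ι _ ?_)
  · constructor
    · rintro h _ ⟨s, hs, i, rfl⟩
      rw [map_mul, h s (h1 hs), mul_zero]
    · intro h
      refine h2 K (RingHom.id K) y fun s hs => ?_
      obtain ⟨i, hi⟩ := Function.ne_iff.1 hy0
      have h3 := h _ ⟨s, hs, i, rfl⟩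
      rw [map_mul, map_pow, eval_X, mul_eq_zero] at h3
      rcases h3 with h3 | h3
      · exact absurd h3 (pow_ne_zero _ hi)
      · exact h3
  · rintro _ ⟨s, hs, i, rfl⟩
    rw [eval₂_mul, hxS s (h1 hs), mul_zero]
  · rintro _ ⟨s, hs, i, rfl⟩
    have h3 := ((isHomogeneous_X K i).pow (2 ^ (k + 1) - D s)).mul (hD s (h1 hs))
    rw [one_mul, Nat.sub_add_cancel (hk s hs)] at h3
    exact h3

end step

end Pool.Agent.L0h15.MZ
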