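import Mathlib

/-!
# Local Zariski closures of rational points and linear actions of unirational groups
-/

set_option autoImplicit false

open MvPolynomial Matrix Topology

namespace Pool.Agent.L0h15.MZ

section density

variable {K L : Type} [Field K] [CharZero K] [NontriviallyNormedField L] (σ : K →+* L)

omit [CharZero K] in
/-- there are infinitely many elements of `K` near a given element of `K` -/
theorem infinite_near (hσ : DenseRange σ) (p : K) {ε : ℝ} (hε : 0 < ε) :
    {q : K | ‖σ q - σ p‖ < ε}.Infinite := by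
  intro hfin
  -- elements of `L` in the punctured ball avoiding the finite set
  have h1 : (σ '' {q : K | ‖σ q - σ p‖ < ε}).Finite := hfin.image _
  have h2 : IsOpen (Metric.ball (σ p) ε \ (σ '' {q : K | ‖σ q - σ p‖ < ε})) :=
    Metric.isOpen_ball.sdiff h1.isClosed
  have h3 : (Metric.ball (σ p) ε \ (σ '' {q : K | ‖σ q - σ p‖ < ε})).Nonempty := by
    have h4 : (Metric.ball (σ p) ε).Infinite :=
      infinite_of_mem_nhds (σ p) (Metric.ball_mem_nhds _ hε)
    exact (h4.sdiff h1).nonempty
  obtain ⟨q, hq⟩ := hσ.exists_mem_open h2 h3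
  exact hq.2 ⟨q, by simpa [dist_eq_norm] using hq.1, rfl⟩

omit [CharZero K] in
/-- A polynomial over an extension `F` of `K` which vanishes at all `K`-points in a neighbourhood
of a `K`-point is zero. -/
theorem eq_zero_of_near (hσ : DenseRange σ) {F : Type} [Field F] [Algebra K F] {I : Type}
    [Finite I] (p : I → K) {W : Set (I → L)} (hW : W ∈ 𝓝 (fun i => σ (p i)))
    (P : MvPolynomial I F)
    (hP : ∀ q : I → K, (fun i => σ (q i)) ∈ W → eval (fun i => algebraMap K F (q i)) P = 0) :
    P = 0 := by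
  have := Fintype.ofFinite I
  obtain ⟨ε, hε, hb⟩ := Metric.mem_nhds_iff.1 hW
  refine funext_set (fun i => algebraMap K F '' {q : K | ‖σ q - σ (p i)‖ < ε}) (fun i => ?_) ?_
  · exact (infinite_near σ hσ (p i) hε).image (algebraMap K F).injective.injOn
  · intro x hx
    have h1 : ∀ i, ∃ q : K, ‖σ q - σ (p i)‖ < ε ∧ algebraMap K F q = x i := fun i =>
      hx i (Set.mem_univ i)
    choose q hq1 hq2 using h1
    have h2 : x = fun i => algebraMap K F (q i) := funext fun i => (hq2 i).symm
    rw [h2, map_zero]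
    refine hP q (hb ?_)
    rw [Metric.mem_ball, dist_pi_lt_iff hε]
    intro i
    rw [dist_eq_norm]
    exact hq1 i

end density

section defs

/-- the value at `a` of the matrix of polynomials `Φ` -/
noncomputable def value {K : Type} (F : Type) [Field K] [Field F] [Algebra K F] {N n : ℕ}
    (Φ : Matrix (Fin n) (Fin n) (MvPolynomial (Fin N) K)) (a : Fin N → F) :
    Matrix (Fin n) (Fin n) F :=
  Φ.map (aeval a)

/-- the group generated by all `Φ(a) Φ(b)⁻¹`, where `a`, `b` have coordinates in `F` -/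
def group {K : Type} (F : Type) [Field K] [Field F] [Algebra K F] {N n : ℕ}
    (Φ : Matrix (Fin n) (Fin n) (MvPolynomial (Fin N) K)) : Subgroup (GL (Fin n) F) :=
  Subgroup.closure {g | ∃ a b : Fin N → F, (value F Φ b).det ≠ 0 ∧
    (g : Matrix (Fin n) (Fin n) F) * value F Φ b = value F Φ a}

variable {K L F : Type} [Field K] [NontriviallyNormedField L] [Field F] [Algebra K F]
  (σ : K →+* L) {n : ℕ}

/-- The polynomial `f` vanishes at all `K`-points of the closed set defined by `S` near `x`. -/
def Near (F : Type) [Field F] [Algebra K F] (S : Set (MvPolynomial (Fin n) K)) (x : Fin n → L)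
    (f : MvPolynomial (Fin n) F) : Prop :=
  ∃ U ∈ 𝓝 x, ∀ y : Fin n → K, y ≠ 0 → (∀ g ∈ S, eval y g = 0) →
    (∃ c : L, c ≠ 0 ∧ (fun i => c * σ (y i)) ∈ U) →
    ∀ t : F, eval (fun i => t * algebraMap K F (y i)) f = 0

/-- the substitution of the linear map with the matrix `M` in the polynomial `f` -/
noncomputable def sub (f : MvPolynomial (Fin n) F) (M : Matrix (Fin n) (Fin n) F) :
    MvPolynomial (Fin n) F :=
  aeval (fun i => ∑ j, C (M i j) * X j) f

theorem eval_sub (f : MvPolynomial (Fin n) F) (M : Matrix (Fin n) (Fin n) F) (v : Fin n → F) :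
    eval v (sub f M) = eval (M *ᵥ v) f := by
  rw [sub, ← coe_aeval_eq_eval, RingHom.coe_coe, ← AlgHom.comp_apply, comp_aeval, aeval_eq_eval]
  congr 2
  funext i
  simp [Matrix.mulVec, dotProduct]

end defs

section step

variable {K L F : Type} [Field K] [NontriviallyNormedField L] [Field F] [Algebra K F]
  (σ : K →+* L) (hσ : DenseRange σ) {n N : ℕ}
  (Φ : Matrix (Fin n) (Fin n) (MvPolynomial (Fin N) K))

theorem value_map (a : Fin N → K) :
    value F Φ (fun i => algebraMap K F (a i)) = (value K Φ a).map (algebraMap K F) := by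
  ext i j
  simp only [value, Matrix.map_apply]
  exact aeval_algebraMap_apply F a (Φ i j)

/-- evaluation of the matrix `Φ` in the completion -/
noncomputable def valueL (a : Fin N → L) : Matrix (Fin n) (Fin n) L := Φ.map (eval₂ σ a)

theorem valueL_map (a : Fin N → K) :
    valueL σ Φ (fun i => σ (a i)) = (value K Φ a).map σ := by
  ext i j
  simp only [value, valueL, Matrix.map_apply]
  exact (eval₂_comp_left σ (RingHom.id K) a (Φ i j)).symm

theorem continuous_valueL : Continuous (valueL σ Φ) := by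
  refine continuous_matrix fun i j => ?_
  simp only [valueL, Matrix.map_apply]
  have h1 : (fun a : Fin N → L => eval₂ σ a (Φ i j)) = fun a => eval a (map σ (Φ i j)) := by
    funext a
    rw [eval_map]
  rw [h1]
  exact MvPolynomial.continuous_eval _

/-- the polynomial `f (τ Φ(s) adj(Φ(t)) y)` in the variables `s`, `t` -/
noncomputable def fam (f : MvPolynomial (Fin n) F) (τ : F) (y : Fin n → K) :
    MvPolynomial (Fin N ⊕ Fin N) F :=
  aeval (fun i => C τ * (((Φ.map (aeval fun l => (X (Sum.inl l) : MvPolynomial (Fin N ⊕ Fin N) F))) *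
    (Φ.map (aeval fun l => (X (Sum.inr l) : MvPolynomial (Fin N ⊕ Fin N) F))).adjugate) *ᵥ
      fun j => C (algebraMap K F (y j))) i) f

theorem value_eval (a : Fin N → F) {I : Type} (g : Fin N → I) (v : I → F)
    (h : ∀ l, v (g l) = a l) :
    (Φ.map (aeval fun l => (X (g l) : MvPolynomial I F))).map (eval v) = value F Φ a := by
  ext i j
  simp only [value, Matrix.map_apply]
  rw [map_aeval, coe_eval₂Hom, aeval_def]
  congr 1
  · ext x
    rw [RingHom.comp_apply, IsScalarTower.algebraMap_apply K F (MvPolynomial I F),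
      MvPolynomial.algebraMap_eq, eval_C]
  · funext l
    rw [eval_X, h]

theorem eval_fam (f : MvPolynomial (Fin n) F) (τ : F) (y : Fin n → K) (a b : Fin N → F) :
    eval (Sum.elim a b) (fam Φ f τ y) =
      eval (fun i => τ * ((value F Φ a * (value F Φ b).adjugate) *ᵥ
        fun j => algebraMap K F (y j)) i) f := by
  rw [fam, map_aeval, coe_eval₂Hom]
  have h1 : (eval (Sum.elim a b)).comp (algebraMap F (MvPolynomial (Fin N ⊕ Fin N) F)) =
      RingHom.id F := by
    ext x
    simp [MvPolynomial.algebraMap_eq]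
  have h2 : ((Φ.map (aeval fun l => (X (Sum.inl l) : MvPolynomial (Fin N ⊕ Fin N) F))) *
      (Φ.map (aeval fun l => (X (Sum.inr l) : MvPolynomial (Fin N ⊕ Fin N) F))).adjugate).map
      (eval (Sum.elim a b)) = value F Φ a * (value F Φ b).adjugate := by
    rw [Matrix.map_mul, ← RingHom.mapMatrix_apply, ← RingHom.mapMatrix_apply,
      RingHom.map_adjugate, RingHom.mapMatrix_apply, RingHom.mapMatrix_apply,
      value_eval Φ a Sum.inl _ fun l => rfl, value_eval Φ b Sum.inr _ fun l => rfl]
  have h3 : (eval (Sum.elim a b) ∘ fun j => (C (algebraMap K F (y j)) :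
      MvPolynomial (Fin N ⊕ Fin N) F)) = fun j => algebraMap K F (y j) := by
    funext j
    exact eval_C _
  rw [h1]
  change eval₂ (RingHom.id F) _ f = eval₂ (RingHom.id F) _ f
  congr 1
  funext i
  rw [map_mul, eval_C, RingHom.map_mulVec, h2, h3]

/-- **One step**: the polynomials which vanish near `x` are stable under the substitution of
`Φ(a) adj(Φ(b))`. -/
theorem near_step (hσ : DenseRange σ) (S : Set (MvPolynomial (Fin n) K)) (p : Fin N → K)
    (hp : (value K Φ p).det ≠ 0)
    (hS : ∀ a b : Fin N → K, (value K Φ a).det ≠ 0 → (value K Φ b).det ≠ 0 → ∀ y : Fin n → K,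
      (∀ g ∈ S, eval y g = 0) →
        ∀ g ∈ S, eval ((value K Φ a * (value K Φ b).adjugate) *ᵥ y) g = 0)
    {x : Fin n → L} {f : MvPolynomial (Fin n) F} (hf : Near σ F S x f) (a b : Fin N → F) :
    Near σ F S x (sub f (value F Φ a * (value F Φ b).adjugate)) := by
  obtain ⟨U, hU, hfU⟩ := hf
  set δ : L := σ (value K Φ p).det with hδ
  have hδ0 : δ ≠ 0 := by
    rw [hδ, Ne, map_eq_zero]
    exact hp
  set A : ((Fin N ⊕ Fin N) → L) → Matrix (Fin n) (Fin n) L := fun q =>
    valueL σ Φ (fun l => q (Sum.inl l)) with hA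
  set B : ((Fin N ⊕ Fin N) → L) → Matrix (Fin n) (Fin n) L := fun q =>
    valueL σ Φ (fun l => q (Sum.inr l)) with hB
  have hAc : Continuous A := (continuous_valueL σ Φ).comp
    (continuous_pi fun l => continuous_apply (Sum.inl l))
  have hBc : Continuous B := (continuous_valueL σ Φ).comp
    (continuous_pi fun l => continuous_apply (Sum.inr l))
  set P0 : (Fin N ⊕ Fin N) → K := Sum.elim p p with hP0
  have hA0 : A (fun i => σ (P0 i)) = (value K Φ p).map σ := valueL_map σ Φ p
  have hB0 : B (fun i => σ (P0 i)) = (value K Φ p).map σ := valueL_map σ Φ p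
  have hdet : ((value K Φ p).map σ).det = δ := (RingHom.map_det σ _).symm
  let m : ((Fin N ⊕ Fin N) → L) × (Fin n → L) → (Fin n → L) := fun q =>
    δ⁻¹ • ((A q.1 * (B q.1).adjugate) *ᵥ q.2)
  have hm : Continuous m := by
    have h : Continuous fun q : ((Fin N ⊕ Fin N) → L) × (Fin n → L) =>
        (A q.1 * (B q.1).adjugate) *ᵥ q.2 :=
      Continuous.matrix_mulVec ((hAc.comp continuous_fst).matrix_mul
        (hBc.comp continuous_fst).matrix_adjugate) continuous_snd
    exact h.const_smul δ⁻¹
  have hm0 : m (fun i => σ (P0 i), x) = x := by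
    show δ⁻¹ • ((A (fun i => σ (P0 i)) * (B (fun i => σ (P0 i))).adjugate) *ᵥ x) = x
    rw [hA0, hB0, Matrix.mul_adjugate, hdet, Matrix.smul_mulVec, Matrix.one_mulVec, smul_smul,
      inv_mul_cancel₀ hδ0, one_smul]
  have hΩ : {q : ((Fin N ⊕ Fin N) → L) × (Fin n → L) | m q ∈ U ∧ (A q.1).det ≠ 0 ∧
      (B q.1).det ≠ 0} ∈ 𝓝 ((fun i => σ (P0 i), x) : ((Fin N ⊕ Fin N) → L) × (Fin n → L)) := by
    refine Filter.inter_mem (hm.continuousAt (by rw [hm0]; exact hU)) (Filter.inter_mem ?_ ?_)
    · refine (hAc.comp continuous_fst).matrix_det.continuousAt.eventually_ne ?_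
      show (A (fun i => σ (P0 i))).det ≠ 0
      rw [hA0, hdet]
      exact hδ0
    · refine (hBc.comp continuous_fst).matrix_det.continuousAt.eventually_ne ?_
      show (B (fun i => σ (P0 i))).det ≠ 0
      rw [hB0, hdet]
      exact hδ0
  rw [nhds_prod_eq, Filter.mem_prod_iff] at hΩ
  obtain ⟨W, hW, V, hV, hWV⟩ := hΩ
  refine ⟨V, hV, fun y hy0 hyS ⟨c, hc0, hcV⟩ t => ?_⟩
  have hfam : fam Φ f t y = 0 := by
    refine eq_zero_of_near σ hσ P0 hW _ fun q hq => ?_
    have h1 : (fun i => algebraMap K F (q i)) =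
        Sum.elim (fun l => algebraMap K F (q (Sum.inl l)))
          (fun l => algebraMap K F (q (Sum.inr l))) := by
      funext i
      rcases i with i | i <;> rfl
    have h2 := hWV (Set.mk_mem_prod hq hcV)
    obtain ⟨h3, h4, h5⟩ := h2
    have hA1 : A (fun i => σ (q i)) = (value K Φ fun l => q (Sum.inl l)).map σ :=
      valueL_map σ Φ _
    have hB1 : B (fun i => σ (q i)) = (value K Φ fun l => q (Sum.inr l)).map σ :=
      valueL_map σ Φ _
    have h6 : (value K Φ fun l => q (Sum.inl l)).det ≠ 0 := by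
      intro h
      refine h4 ?_
      show (A (fun i => σ (q i))).det = 0
      rw [hA1, ← RingHom.mapMatrix_apply, ← RingHom.map_det, h, map_zero]
    have h7 : (value K Φ fun l => q (Sum.inr l)).det ≠ 0 := by
      intro h
      refine h5 ?_
      show (B (fun i => σ (q i))).det = 0
      rw [hB1, ← RingHom.mapMatrix_apply, ← RingHom.map_det, h, map_zero]
    set z : Fin n → K := ((value K Φ fun l => q (Sum.inl l)) *
      (value K Φ fun l => q (Sum.inr l)).adjugate) *ᵥ y with hz
    have hz0 : z ≠ 0 := by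
      intro h
      apply hy0
      have h8 : (value K Φ fun l => q (Sum.inr l)) *ᵥ
          (((value K Φ fun l => q (Sum.inl l)).adjugate) *ᵥ z) =
          ((value K Φ fun l => q (Sum.inl l)).det * (value K Φ fun l => q (Sum.inr l)).det) • y := by
        rw [hz, Matrix.mulVec_mulVec, Matrix.mulVec_mulVec, Matrix.mul_assoc,
          ← Matrix.mul_assoc (adjugate _), Matrix.adjugate_mul,
          Matrix.smul_mul, Matrix.one_mul, Matrix.mul_smul, Matrix.mul_adjugate, smul_smul,
          Matrix.smul_mulVec, Matrix.one_mulVec]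
      rw [h, Matrix.mulVec_zero, Matrix.mulVec_zero] at h8
      exact (smul_eq_zero.1 h8.symm).resolve_left (mul_ne_zero h6 h7)
    have h9 := hfU z hz0 (hS _ _ h6 h7 y hyS) ⟨δ⁻¹ * c, mul_ne_zero (inv_ne_zero hδ0) hc0, by
      have h10 : m (fun i => σ (q i), fun i => c * σ (y i)) =
          fun i => δ⁻¹ * c * σ (z i) := by
        show δ⁻¹ • ((A (fun i => σ (q i)) * (B (fun i => σ (q i))).adjugate) *ᵥ
          fun i => c * σ (y i)) = _
        rw [hA1, hB1, ← RingHom.mapMatrix_apply, ← RingHom.mapMatrix_apply,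
          ← RingHom.map_adjugate, ← map_mul, RingHom.mapMatrix_apply]
        funext i
        have h11 : (fun i => c * σ (y i)) = c • (σ ∘ y) := rfl
        rw [h11, Matrix.mulVec_smul, Pi.smul_apply, Pi.smul_apply, smul_eq_mul, smul_eq_mul,
          ← RingHom.map_mulVec, mul_assoc]
      rw [← h10]
      exact h3⟩ t
    rw [h1, eval_fam, value_map, value_map]
    rw [← h9]
    congr 2
    funext i
    rw [← RingHom.mapMatrix_apply, ← RingHom.mapMatrix_apply, ← RingHom.map_adjugate, ← map_mul,
      RingHom.mapMatrix_apply]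
    have h12 := RingHom.map_mulVec (algebraMap K F) ((value K Φ fun l => q (Sum.inl l)) *
      (value K Φ fun l => q (Sum.inr l)).adjugate) y i
    rw [← hz] at h12
    rw [h12]
    rfl
  have h20 := eval_fam Φ f t y a b
  rw [hfam, map_zero] at h20
  rw [eval_sub, h20]
  congr 2
  funext i
  have h21 : (fun i => t * algebraMap K F (y i)) = t • fun i => algebraMap K F (y i) := rfl
  rw [h21, Matrix.mulVec_smul, Pi.smul_apply, smul_eq_mul]

theorem near_smul {S : Set (MvPolynomial (Fin n) K)} {x : Fin n → L} {f : MvPolynomial (Fin n) F}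
    {M : Matrix (Fin n) (Fin n) F} (h : Near σ F S x (sub f M)) (c : F) :
    Near σ F S x (sub f (c • M)) := by
  obtain ⟨U, hU, hf⟩ := h
  refine ⟨U, hU, fun y hy0 hyS hc t => ?_⟩
  have h1 := hf y hy0 hyS hc (c * t)
  rw [eval_sub] at h1 ⊢
  rw [← h1]
  congr 2
  have h2 : (fun i => t * algebraMap K F (y i)) = t • fun i => algebraMap K F (y i) := rfl
  have h3 : (fun i => c * t * algebraMap K F (y i)) = (c * t) • fun i => algebraMap K F (y i) := rfl
  rw [h2, h3, Matrix.smul_mulVec, Matrix.mulVec_smul, Matrix.mulVec_smul, smul_smul]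

omit [Algebra K F] in
theorem near_congr [Algebra K F] {S : Set (MvPolynomial (Fin n) K)} {x : Fin n → L}
    {f f' : MvPolynomial (Fin n) F} (h : ∀ v, eval v f' = eval v f) :
    Near σ F S x f → Near σ F S x f' := by
  rintro ⟨U, hU, hf⟩
  refine ⟨U, hU, fun y hy0 hyS hc t => ?_⟩
  rw [h]
  exact hf y hy0 hyS hc t

theorem det_value [Infinite K] (hΦ : Φ.det ≠ 0) : ∃ p : Fin N → K, (value K Φ p).det ≠ 0 := by
  by_contra h
  push Not at h
  apply hΦ
  refine MvPolynomial.funext fun p => ?_
  rw [map_zero, ← h p]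
  have h1 : value K Φ p = (eval p).mapMatrix Φ := by
    ext i j
    simp [value, aeval_eq_eval]
  rw [h1, RingHom.map_det]

/-- **The polynomials which vanish near `x` are stable under the group.** -/
theorem near_group (hσ : DenseRange σ) (S : Set (MvPolynomial (Fin n) K)) (p : Fin N → K)
    (hp : (value K Φ p).det ≠ 0)
    (hS : ∀ a b : Fin N → K, (value K Φ a).det ≠ 0 → (value K Φ b).det ≠ 0 → ∀ y : Fin n → K,
      (∀ g ∈ S, eval y g = 0) →
        ∀ g ∈ S, eval ((value K Φ a * (value K Φ b).adjugate) *ᵥ y) g = 0)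
    {x : Fin n → L} (g : GL (Fin n) F) (hg : g ∈ group F Φ) :
    (∀ f, Near σ F S x f → Near σ F S x (sub f (g : Matrix (Fin n) (Fin n) F))) ∧
    (∀ f, Near σ F S x f → Near σ F S x (sub f ((g⁻¹ : GL (Fin n) F) :
      Matrix (Fin n) (Fin n) F))) := by
  have key : ∀ (a b : Fin N → F) (g : Matrix (Fin n) (Fin n) F), (value F Φ b).det ≠ 0 →
      g * value F Φ b = value F Φ a → ∀ f, Near σ F S x f → Near σ F S x (sub f g) := by
    intro a b g hb hg f hf
    have h1 : g = ((value F Φ b).det)⁻¹ • (value F Φ a * (value F Φ b).adjugate) := by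
      rw [← hg, Matrix.mul_assoc, Matrix.mul_adjugate, Matrix.mul_smul, Matrix.mul_one, smul_smul,
        inv_mul_cancel₀ hb, one_smul]
    rw [h1]
    exact near_smul σ (near_step σ Φ hσ S p hp hS hf a b) _
  have hmul : ∀ (g h : Matrix (Fin n) (Fin n) F) (f : MvPolynomial (Fin n) F),
      Near σ F S x (sub (sub f g) h) → Near σ F S x (sub f (g * h)) := fun g h f =>
    near_congr σ fun v => by
      rw [eval_sub, eval_sub, eval_sub, Matrix.mulVec_mulVec]
  have hone : ∀ f : MvPolynomial (Fin n) F, Near σ F S x f → Near σ F S x (sub f 1) := fun f =>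
    near_congr σ fun v => by
      rw [eval_sub, Matrix.one_mulVec]
  refine Subgroup.closure_induction (p := fun (g : GL (Fin n) F) _ =>
    (∀ f, Near σ F S x f → Near σ F S x (sub f (g : Matrix (Fin n) (Fin n) F))) ∧
    (∀ f, Near σ F S x f → Near σ F S x (sub f ((g⁻¹ : GL (Fin n) F) :
      Matrix (Fin n) (Fin n) F)))) ?_ ?_ ?_ ?_ hg
  · rintro g ⟨a, b, hb, hg⟩
    refine ⟨key a b (g : Matrix (Fin n) (Fin n) F) hb hg, key b a _ ?_ ?_⟩
    · rw [← hg, Matrix.det_mul]
      exact mul_ne_zero (g.isUnit.map Matrix.detMonoidHom).ne_zero hb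
    · rw [← hg, ← Matrix.mul_assoc, ← Units.val_mul, inv_mul_cancel, Units.val_one,
        Matrix.one_mul]
  · rw [inv_one, Units.val_one]
    exact ⟨hone, hone⟩
  · rintro g h _ _ ⟨h1, h2⟩ ⟨h3, h4⟩
    refine ⟨fun f hf => ?_, fun f hf => ?_⟩
    · rw [Units.val_mul]
      exact hmul _ _ _ (h3 _ (h1 f hf))
    · rw [_root_.mul_inv_rev, Units.val_mul]
      exact hmul _ _ _ (h2 _ (h4 f hf))
  · rintro g _ ⟨h1, h2⟩
    refine ⟨h2, fun f hf => ?_⟩
    rw [_root_.inv_inv]
    exact h1 f hf

end step

end Pool.Agent.L0h15.MZ
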