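import Mathlib
import Pool.Agent.L0h15.MZ.Orb

/-!
# Mazur's question for varieties with a linear action of a unirational group: proofs
-/

set_option autoImplicit false

open MvPolynomial Matrix Topology

namespace Pool.Agent.L0h15.MZ

variable {K L : Type} [Field K] [NontriviallyNormedField L] (σ : K →+* L) {n : ℕ}

/-- the polynomials vanishing at the `K`-points of the projective set defined by `S` near `x` -/
def localIdeal (S : Set (MvPolynomial (Fin n) K)) (x : Fin n → L) :
    Set (MvPolynomial (Fin n) K) :=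
  {f | ∃ U ∈ 𝓝 x, ∀ y : Fin n → K, y ≠ 0 → (∀ g ∈ S, eval y g = 0) →
    (∃ c : L, c ≠ 0 ∧ (fun i => c * σ (y i)) ∈ U) → ∀ t : K, eval (t • y) f = 0}

section descent

variable {F : Type} [Field F] [Algebra K F]

omit [NontriviallyNormedField L] in
/-- a polynomial function vanishing on a line over an infinite field vanishes on the line over
any extension -/
theorem line [Infinite K] (f : MvPolynomial (Fin n) K) (y : Fin n → K)
    (h : ∀ t : K, eval (t • y) f = 0) (t : F) :
    aeval (fun i => t * algebraMap K F (y i)) f = 0 := by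
  set p : Polynomial K := aeval (fun i => Polynomial.X * Polynomial.C (y i)) f with hp
  have h1 : p = 0 := by
    refine Polynomial.funext fun t => ?_
    rw [Polynomial.eval_zero, ← h t, hp, ← Polynomial.coe_aeval_eq_eval,
      ← AlgHom.comp_apply, comp_aeval, aeval_eq_eval]
    congr 2
    funext i
    rw [map_mul, Polynomial.aeval_X, Polynomial.aeval_C]
    rfl
  have h2 : Polynomial.aeval t p = aeval (fun i => t * algebraMap K F (y i)) f := by
    rw [hp, ← AlgHom.comp_apply, comp_aeval]
    congr 2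
    funext i
    rw [map_mul, Polynomial.aeval_X, Polynomial.aeval_C]
  rw [← h2, h1, map_zero]

theorem near_of_localIdeal [Infinite K] {S : Set (MvPolynomial (Fin n) K)} {x : Fin n → L}
    {f : MvPolynomial (Fin n) K} (hf : f ∈ localIdeal σ S x) :
    Near σ F S x (map (algebraMap K F) f) := by
  obtain ⟨U, hU, h⟩ := hf
  refine ⟨U, hU, fun y hy0 hyS hc t => ?_⟩
  rw [eval_map, ← aeval_def]
  exact line f y (h y hy0 hyS hc) t

/-- the polynomial with the coefficients `φ c`, for the coefficients `c` of `f` -/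
noncomputable def comp (φ : F →ₗ[K] K) (f : MvPolynomial (Fin n) F) : MvPolynomial (Fin n) K :=
  ∑ m ∈ f.support, monomial m (φ (f.coeff m))

theorem eval_comp (φ : F →ₗ[K] K) (f : MvPolynomial (Fin n) F) (y : Fin n → K) :
    eval y (comp φ f) = φ (eval (fun i => algebraMap K F (y i)) f) := by
  rw [comp, map_sum, eval_eq, map_sum]
  refine Finset.sum_congr rfl fun m _ => ?_
  rw [eval_monomial, Finsupp.prod_fintype _ _ (fun i => pow_zero _)]
  have h1 : f.coeff m * ∏ i ∈ m.support, (algebraMap K F (y i)) ^ m i =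
      (∏ i, y i ^ m i) • f.coeff m := by
    rw [Algebra.smul_def, map_prod, mul_comm]
    congr 1
    rw [Finset.prod_congr rfl fun i _ => map_pow _ _ _]
    refine Finset.prod_subset (Finset.subset_univ _) fun i _ hi => ?_
    rw [Finsupp.notMem_support_iff.1 hi, pow_zero]
  rw [h1, map_smul, smul_eq_mul, mul_comm]

/-- If all the polynomials obtained from `f` by applying `K`-linear maps to the coefficients
vanish at `v`, then `f` vanishes at `v`. -/
theorem eval_eq_zero_of_comp (f : MvPolynomial (Fin n) F) (v : Fin n → F)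
    (h : ∀ φ : F →ₗ[K] K, aeval v (comp φ f) = 0) : eval v f = 0 := by
  classical
  set b := Module.Basis.ofVectorSpace K F with hb
  -- the coordinates that occur in the coefficients
  set T : Finset (Module.Basis.ofVectorSpaceIndex K F) :=
    f.support.biUnion fun m => (b.repr (f.coeff m)).support with hT
  have h1 : ∀ m ∈ f.support, f.coeff m = ∑ i ∈ T, algebraMap K F (b.repr (f.coeff m) i) * b i := by
    intro m hm
    conv_lhs => rw [← b.linearCombination_repr (f.coeff m)]
    rw [Finsupp.linearCombination_apply, Finsupp.sum_of_support_subset (s := T)]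
    · refine Finset.sum_congr rfl fun i _ => ?_
      rw [Algebra.smul_def]
    · exact Finset.subset_biUnion_of_mem (fun m => (b.repr (f.coeff m)).support) hm
    · intro i _
      exact zero_smul _ _
  have h2 : eval v f = ∑ i ∈ T, b i * aeval v (comp (b.coord i) f) := by
    rw [eval_eq]
    have h3 : ∀ i ∈ T, b i * aeval v (comp (b.coord i) f) = ∑ m ∈ f.support,
        b i * (algebraMap K F (b.repr (f.coeff m) i) * ∏ j, v j ^ m j) := by
      intro i _
      rw [comp, map_sum, Finset.mul_sum]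
      refine Finset.sum_congr rfl fun m _ => ?_
      rw [aeval_monomial, Finsupp.prod_fintype _ _ (fun i => pow_zero _)]
      rfl
    rw [Finset.sum_congr rfl h3, Finset.sum_comm]
    refine Finset.sum_congr rfl fun m hm => ?_
    have h4 : ∏ j ∈ m.support, v j ^ m j = ∏ j, v j ^ m j := by
      refine Finset.prod_subset (Finset.subset_univ _) fun i _ hi => ?_
      rw [Finsupp.notMem_support_iff.1 hi, pow_zero]
    rw [h4]
    conv_lhs => rw [h1 m hm]
    rw [Finset.sum_mul]
    refine Finset.sum_congr rfl fun i _ => ?_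
    ring
  rw [h2]
  refine Finset.sum_eq_zero fun i _ => ?_
  rw [h, mul_zero]

theorem localIdeal_of_near {S : Set (MvPolynomial (Fin n) K)} {x : Fin n → L}
    {f : MvPolynomial (Fin n) F} (hf : Near σ F S x f) (φ : F →ₗ[K] K) :
    comp φ f ∈ localIdeal σ S x := by
  obtain ⟨U, hU, h⟩ := hf
  refine ⟨U, hU, fun y hy0 hyS hc t => ?_⟩
  rw [eval_comp]
  have h1 := h y hy0 hyS hc (algebraMap K F t)
  have h2 : (fun i => algebraMap K F ((t • y) i)) =
      fun i => algebraMap K F t * algebraMap K F (y i) := by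
    funext i
    rw [Pi.smul_apply, smul_eq_mul, map_mul]
  rw [h2, h1, map_zero]

end descent

section main

/-- homogeneous polynomials -/
theorem aeval_scale {R A : Type} [CommRing R] [CommRing A] [Algebra R A]
    {f : MvPolynomial (Fin n) R} {d : ℕ} (hf : f.IsHomogeneous d) (c : A) (v : Fin n → A) :
    aeval (fun i => c * v i) f = c ^ d * aeval v f := by
  rw [aeval_def, aeval_def, eval₂_eq, eval₂_eq, Finset.mul_sum]
  refine Finset.sum_congr rfl fun m hm => ?_
  have h1 : ∑ i ∈ m.support, m i = d := by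
    have h2 := hf (mem_support_iff.1 hm)
    rw [Finsupp.weight_apply] at h2
    simpa [Finsupp.sum] using h2
  rw [Finset.prod_congr rfl fun i _ => mul_pow _ _ _, Finset.prod_mul_distrib,
    Finset.prod_pow_eq_pow_sum, h1]
  ring

variable {F : Type} [Field F] [Algebra K F] {N : ℕ}
  (Φ : Matrix (Fin n) (Fin n) (MvPolynomial (Fin N) K)) (S : Set (MvPolynomial (Fin n) K))

theorem aeval_map_eq (y : Fin n → K) (s : MvPolynomial (Fin n) K) :
    aeval (fun i => algebraMap K F (y i)) s = algebraMap K F (eval y s) := by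
  have h := aeval_algebraMap_apply F y s
  rw [aeval_eq_eval] at h
  exact h

/-- the closed set defined by `S` is stable under the group -/
def Stable (F : Type) [Field F] [Algebra K F] : Prop :=
  ∀ g ∈ group F Φ, ∀ v : Fin n → F, (∀ s ∈ S, aeval v s = 0) →
    ∀ s ∈ S, aeval ((g : Matrix (Fin n) (Fin n) F) *ᵥ v) s = 0

theorem stable_K (hh : ∀ s ∈ S, ∃ d : ℕ, s.IsHomogeneous d) (h : Stable Φ S F)
    (a b : Fin N → K) (ha : (value K Φ a).det ≠ 0) (hb : (value K Φ b).det ≠ 0)
    (y : Fin n → K) (hy : ∀ g ∈ S, eval y g = 0) (s : MvPolynomial (Fin n) K) (hs : s ∈ S) :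
    eval ((value K Φ a * (value K Φ b).adjugate) *ᵥ y) s = 0 := by
  set ι := algebraMap K F
  have hdet : ∀ a : Fin N → K, (value F Φ fun i => ι (a i)).det = ι (value K Φ a).det := by
    intro a
    rw [value_map, ← RingHom.mapMatrix_apply, ← RingHom.map_det]
  have ha' : (value F Φ fun i => ι (a i)).det ≠ 0 := by
    rw [hdet, Ne, map_eq_zero]
    exact ha
  have hb' : (value F Φ fun i => ι (b i)).det ≠ 0 := by
    rw [hdet, Ne, map_eq_zero]
    exact hb
  set MA := Matrix.GeneralLinearGroup.mkOfDetNeZero (value F Φ fun i => ι (a i)) ha' with hMA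
  set MB := Matrix.GeneralLinearGroup.mkOfDetNeZero (value F Φ fun i => ι (b i)) hb' with hMB
  have hg : MA * MB⁻¹ ∈ group F Φ := Subgroup.subset_closure
    ⟨fun i => ι (a i), fun i => ι (b i), hb', by
    have h1 : value F Φ (fun i => ι (b i)) = (MB : Matrix (Fin n) (Fin n) F) := rfl
    rw [h1, ← Units.val_mul, inv_mul_cancel_right]
    rfl⟩
  have h1 := h _ hg (fun i => ι (y i)) (fun s hs => by
    rw [aeval_map_eq, hy s hs, map_zero]) s hs
  -- the point is a multiple of the one in the statement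
  have h2 : ((MA * MB⁻¹ : GL (Fin n) F) : Matrix (Fin n) (Fin n) F) *ᵥ (fun i => ι (y i)) =
      fun i => (ι (value K Φ b).det)⁻¹ *
        ι (((value K Φ a * (value K Φ b).adjugate) *ᵥ y) i) := by
    have h3 : ((MA * MB⁻¹ : GL (Fin n) F) : Matrix (Fin n) (Fin n) F) =
        (ι (value K Φ b).det)⁻¹ • ((value K Φ a * (value K Φ b).adjugate).map ι) := by
      have h4 : ((MA * MB⁻¹ : GL (Fin n) F) : Matrix (Fin n) (Fin n) F) *
          (value F Φ fun i => ι (b i)) = value F Φ fun i => ι (a i) := by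
        have h5 : value F Φ (fun i => ι (b i)) = (MB : Matrix (Fin n) (Fin n) F) := rfl
        rw [h5, ← Units.val_mul, inv_mul_cancel_right]
        rfl
      have h6 : (ι (value K Φ b).det) • ((MA * MB⁻¹ : GL (Fin n) F) : Matrix (Fin n) (Fin n) F) =
          (value K Φ a * (value K Φ b).adjugate).map ι := by
        rw [Matrix.map_mul, ← value_map, ← h4, Matrix.mul_assoc]
        have h7 : (value F Φ fun i => ι (b i)) * ((value K Φ b).adjugate).map ι =
            (ι (value K Φ b).det) • 1 := by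
          rw [value_map, ← Matrix.map_mul, Matrix.mul_adjugate]
          ext i j
          rw [Matrix.map_apply, Matrix.smul_apply, Matrix.smul_apply, smul_eq_mul, map_mul,
            smul_eq_mul, Matrix.one_apply, Matrix.one_apply]
          split_ifs
          · rw [map_one]
          · rw [map_zero]
        rw [h7, Matrix.mul_smul, Matrix.mul_one]
      rw [← h6, smul_smul, inv_mul_cancel₀, one_smul]
      rw [Ne, map_eq_zero]
      exact hb
    rw [h3, Matrix.smul_mulVec]
    funext i
    rw [Pi.smul_apply, smul_eq_mul, RingHom.map_mulVec]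
    rfl
  obtain ⟨d, hd⟩ := hh s hs
  rw [h2, aeval_scale hd, aeval_map_eq] at h1
  have h8 := (mul_eq_zero.1 h1).resolve_left (pow_ne_zero _ (inv_ne_zero (by
    rw [Ne, map_eq_zero]
    exact hb)))
  rwa [map_eq_zero] at h8

/-- the set of the polynomials vanishing on the orbit of the line through `e` -/
def orbitIdeal (e : Fin n → F) : Set (MvPolynomial (Fin n) K) :=
  {f | ∀ g ∈ group F Φ, ∀ c : F, aeval (fun i => c * ((g : Matrix (Fin n) (Fin n) F) *ᵥ e) i) f = 0}

/-- the `K`-point `y` lies in the orbit of the line through `e` -/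
def InOrbit (e : Fin n → F) (y : Fin n → K) : Prop :=
  ∃ g ∈ group F Φ, ∃ c : F, (fun i => algebraMap K F (y i)) =
    fun i => c * ((g : Matrix (Fin n) (Fin n) F) *ᵥ e) i

/-- the orbit of `e` has `K`-points arbitrarily close to `x` -/
def Accumulates (e : Fin n → F) (x : Fin n → L) : Prop :=
  ∀ U ∈ 𝓝 x, ∃ y : Fin n → K, y ≠ 0 ∧ (∀ g ∈ S, eval y g = 0) ∧
    (∃ c : L, c ≠ 0 ∧ (fun i => c * σ (y i)) ∈ U) ∧ InOrbit Φ e y

variable {S}

/-- A polynomial which vanishes near a point where the orbit accumulates vanishes on the orbit. -/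
theorem localIdeal_subset_orbitIdeal [Infinite K] (hσ : DenseRange σ)
    (hh : ∀ s ∈ S, ∃ d : ℕ, s.IsHomogeneous d) (hΦ : Φ.det ≠ 0) (hst : Stable Φ S F)
    {x : Fin n → L} {e : Fin n → F} (he : Accumulates σ Φ S e x) :
    localIdeal σ S x ⊆ orbitIdeal Φ e := by
  rintro f ⟨U, hU, hf⟩ h hh' c
  obtain ⟨p, hp⟩ := det_value Φ hΦ
  obtain ⟨V, hVU, hVo, hxV⟩ := mem_nhds_iff.1 hU
  obtain ⟨y, hy0, hyS, ⟨c₀, hc₀, hcV⟩, g, hg, c₁, hc₁⟩ := he V (hVo.mem_nhds hxV)
  -- `f` vanishes near the point `c₀ σ(y)`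
  have h1 : f ∈ localIdeal σ S (fun i => c₀ * σ (y i)) :=
    ⟨V, hVo.mem_nhds hcV, fun z hz0 hzS ⟨c, hc, hcz⟩ => hf z hz0 hzS ⟨c, hc, hVU hcz⟩⟩
  have h2 := near_of_localIdeal (F := F) σ h1
  have h3 := (near_group σ Φ hσ S p hp (fun a b ha hb y hy g hg =>
    stable_K Φ S hh hst a b ha hb y hy g hg) (h * g⁻¹)
    (Subgroup.mul_mem _ hh' (Subgroup.inv_mem _ hg))).1 _ h2
  obtain ⟨W, hW, h4⟩ := h3
  have h5 : c₁ ≠ 0 := by
    intro h
    apply hy0
    funext i
    have h6 := congrFun hc₁ i
    simp only [h, zero_mul] at h6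
    rwa [map_eq_zero] at h6
  have h6 := h4 y hy0 hyS ⟨c₀, hc₀, mem_of_mem_nhds hW⟩ (c / c₁)
  rw [eval_sub, eval_map, ← aeval_def] at h6
  rw [← h6]
  congr 1
  congr 1
  have h7 : (fun i => c / c₁ * algebraMap K F (y i)) =
      c • ((g : Matrix (Fin n) (Fin n) F) *ᵥ e) := by
    funext i
    rw [congrFun hc₁ i, Pi.smul_apply, smul_eq_mul, ← mul_assoc, div_mul_cancel₀ _ h5]
  rw [h7, Matrix.mulVec_smul, Matrix.mulVec_mulVec, ← Units.val_mul, inv_mul_cancel_right]
  rfl

/-- the structure of the local Zariski closures -/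
theorem localIdeal_eq [Infinite K] (hσ : DenseRange σ)
    (hh : ∀ s ∈ S, ∃ d : ℕ, s.IsHomogeneous d) (hΦ : Φ.det ≠ 0) (hst : Stable Φ S F)
    (S' : Set (MvPolynomial (Fin n) K)) (E : Finset (Fin n → F))
    (hE : ∀ y : Fin n → K, y ≠ 0 → (∀ g ∈ S, eval y g = 0) → (∀ g ∈ S', eval y g = 0) ∨
      ∃ e ∈ E, InOrbit Φ e y) (x : Fin n → L) :
    localIdeal σ S x = localIdeal σ (S ∪ S') x ∩
      {f | ∀ e ∈ E, Accumulates σ Φ S e x → f ∈ orbitIdeal Φ e} := by
  classical
  refine Set.Subset.antisymm (fun f hf => ⟨?_, fun e _ he => ?_⟩) ?_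
  · obtain ⟨U, hU, h⟩ := hf
    exact ⟨U, hU, fun y hy0 hyS => h y hy0 fun g hg => hyS g (Or.inl hg)⟩
  · exact localIdeal_subset_orbitIdeal σ Φ hσ hh hΦ hst he hf
  · rintro f ⟨⟨U, hU, hf⟩, hfE⟩
    have h1 : ∀ e : Fin n → F, ∃ V ∈ 𝓝 x, ¬ Accumulates σ Φ S e x → ∀ y : Fin n → K, y ≠ 0 →
        (∀ g ∈ S, eval y g = 0) → (∃ c : L, c ≠ 0 ∧ (fun i => c * σ (y i)) ∈ V) →
        ¬ InOrbit Φ e y := by
      intro e
      by_cases he : Accumulates σ Φ S e x
      · exact ⟨Set.univ, Filter.univ_mem, fun h => absurd he h⟩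
      · have he' := he
        unfold Accumulates at he'
        push Not at he'
        obtain ⟨V, hV, h⟩ := he'
        exact ⟨V, hV, fun _ y hy0 hyS hc => h y hy0 hyS hc⟩
    choose V hV hVE using h1
    refine ⟨U ∩ ⋂ e ∈ E, V e, Filter.inter_mem hU ((Filter.biInter_finset_mem E).2
      fun e _ => hV e), fun y hy0 hyS ⟨c, hc0, hc⟩ t => ?_⟩
    rcases hE y hy0 hyS with h | ⟨e, he, heo⟩
    · exact hf y hy0 (fun g hg => hg.elim (hyS g) (h g)) ⟨c, hc0, hc.1⟩ t
    · have hacc : Accumulates σ Φ S e x := by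
        by_contra h
        exact hVE e h y hy0 hyS ⟨c, hc0, Set.mem_iInter₂.1 hc.2 e he⟩ heo
      have h2 := hfE e he hacc
      obtain ⟨g, hg, c₁, hc₁⟩ := heo
      have h3 := h2 g hg (algebraMap K F t * c₁)
      have h4 : (fun i => algebraMap K F t * c₁ * ((g : Matrix (Fin n) (Fin n) F) *ᵥ e) i) =
          fun i => algebraMap K F ((t • y) i) := by
        funext i
        rw [mul_assoc, ← congrFun hc₁ i, Pi.smul_apply, smul_eq_mul, map_mul]
      rw [h4, aeval_map_eq, map_eq_zero] at h3
      exact h3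

/-- outside of the closed set defined by `S'` there is no condition -/
theorem localIdeal_univ {S' : Set (MvPolynomial (Fin n) K)} {x : Fin n → L}
    {s : MvPolynomial (Fin n) K} (hs : s ∈ S') {d : ℕ} (hd : s.IsHomogeneous d)
    (hx : eval₂ σ x s ≠ 0) : localIdeal σ S' x = Set.univ := by
  refine Set.eq_univ_of_forall fun f => ?_
  have hcont : Continuous fun v : Fin n → L => eval₂ σ v s := by
    have h1 : (fun v : Fin n → L => eval₂ σ v s) = fun v => eval v (map σ s) := by
      funext v
      rw [eval_map]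
    rw [h1]
    exact MvPolynomial.continuous_eval _
  refine ⟨{v | eval₂ σ v s ≠ 0}, hcont.continuousAt.eventually_ne hx, ?_⟩
  rintro y - hyS ⟨c, -, hc⟩
  exfalso
  apply hc
  have h2 := aeval_scale (R := L) (hd.map σ) c (fun i => σ (y i))
  rw [aeval_eq_eval, aeval_eq_eval, eval_map, eval_map] at h2
  have h3 : eval₂ σ (fun i => σ (y i)) s = σ (eval y s) := (eval₂_comp_left σ (RingHom.id K) y s).symm
  rw [h2, h3, hyS s hs, map_zero, mul_zero]

end main

end Pool.Agent.L0h15.MZ
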