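import Mathlib
import Pool.Agent.L0h15.MZ.Ver

/-!
# The compact set of balanced representatives
-/

set_option autoImplicit false

open MvPolynomial Topology TensorProduct Module

namespace Pool.Agent.L0h15.MZ

/-- The kernel of a homomorphism to a field is a direct factor. -/
theorem exists_idem {A K L : Type} [Field A] [Field K] [CharZero K] [Field L] [Algebra ℚ A]
    [FiniteDimensional ℚ K] (E : A ⊗[ℚ] K →+* L) :
    ∃ e : A ⊗[ℚ] K, E e = 1 ∧ ∀ z, E z = 0 → e * z = 0 := by
  have h1 : Algebra.FormallyUnramified ℚ K := Algebra.FormallyUnramified.of_isSeparable ℚ K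
  have h2 : IsReduced (A ⊗[ℚ] K) := Algebra.FormallyUnramified.isReduced_of_field A _
  have h3 : IsArtinianRing (A ⊗[ℚ] K) := IsArtinianRing.of_finite A _
  have h4 : IsSemisimpleRing (A ⊗[ℚ] K) := IsArtinianRing.isSemisimpleRing_of_isReduced _
  obtain ⟨e, he, hI⟩ := IsSemisimpleRing.ideal_eq_span_idempotent (RingHom.ker E)
  refine ⟨1 - e, ?_, fun z hz => ?_⟩
  · have h5 : e ∈ RingHom.ker E := by
      rw [hI]
      exact Ideal.mem_span_singleton_self e
    rw [map_sub, map_one, (RingHom.mem_ker).1 h5, sub_zero]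
  · have h5 : z ∈ RingHom.ker E := hz
    rw [hI, Ideal.mem_span_singleton] at h5
    obtain ⟨w, rfl⟩ := h5
    rw [← mul_assoc, sub_mul, one_mul, he.eq, sub_self, zero_mul]

/-- The projection to the factor of a place. -/
theorem exists_proj {K : Type} [Field K] [NumberField K] {A L : Type} [Field A] [Field L]
    (τ : ℚ →+* A) (θ : A →+* L) (σ : K →+* L) {J : Type} [Fintype J] (b : Basis J ℚ K) :
    ∃ (P : (J → A) →ₗ[A] (J → A)) (M : K → (J → A) →ₗ[A] (J → A)) (e : J → A),
      (∀ y q, M y (fun j => τ (b.equivFun q j)) = fun j => τ (b.equivFun (q * y) j)) ∧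
      (∀ y, P (M y e) = M y e) ∧
      (∀ z, ∑ j, θ (z j) * σ (b j) = 0 → P z = 0) ∧
      (∀ y, ∑ j, θ (M y e j) * σ (b j) = σ y) := by
  have : CharZero A := charZero_of_injective_ringHom τ.injective
  have : CharZero L := charZero_of_injective_ringHom σ.injective
  have hτ : τ = algebraMap ℚ A := Subsingleton.elim _ _
  set B := Algebra.TensorProduct.basis A b with hB
  set E : A ⊗[ℚ] K →ₐ[ℚ] L := Algebra.TensorProduct.productMap θ.toRatAlgHom σ.toRatAlgHom with hE
  have hE1 : ∀ a y, E (a ⊗ₜ y) = θ a * σ y := fun a y => by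
    rw [hE, Algebra.TensorProduct.productMap_apply_tmul]
    rfl
  have hE2 : ∀ (a : A) (t : A ⊗[ℚ] K), E (a • t) = θ a * E t := by
    intro a t
    have h1 : a • t = (a ⊗ₜ 1) * t := by
      rw [← one_mul t, ← smul_mul_assoc, one_mul, Algebra.TensorProduct.one_def, smul_tmul', 
        smul_eq_mul, mul_one]
    rw [h1, map_mul, hE1, map_one, mul_one]
  have hE3 : ∀ t, E t = ∑ j, θ (B.equivFun t j) * σ (b j) := by
    intro t
    conv_lhs => rw [← B.sum_equivFun t]
    rw [map_sum]
    refine Finset.sum_congr rfl fun j _ => ?_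
    rw [hE2, hB, Algebra.TensorProduct.basis_apply, hE1, map_one, one_mul]
  have hB1 : ∀ y : K, B.equivFun ((1 : A) ⊗ₜ y) = fun j => τ (b.equivFun y j) := by
    intro y
    funext j
    rw [Basis.equivFun_apply, hB, Algebra.TensorProduct.basis_repr_tmul, one_smul,
      Finsupp.mapRange_apply, Basis.equivFun_apply, hτ]
  obtain ⟨e, he1, he2⟩ := exists_idem (A := A) (K := K) (L := L) E.toRingHom
  have he3 : e * e = e := by
    have h1 := he2 (1 - e) (by
      rw [map_sub, he1, map_one, sub_self])
    rw [mul_sub, mul_one, sub_eq_zero] at h1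
    exact h1.symm
  refine ⟨B.equivFun.toLinearMap ∘ₗ LinearMap.mulLeft A e ∘ₗ B.equivFun.symm.toLinearMap,
    fun y => B.equivFun.toLinearMap ∘ₗ LinearMap.mulRight A ((1 : A) ⊗ₜ y) ∘ₗ
      B.equivFun.symm.toLinearMap, B.equivFun e, ?_, ?_, ?_, ?_⟩
  · intro y q
    rw [← hB1, ← hB1]
    simp only [LinearMap.comp_apply, LinearEquiv.coe_coe, LinearEquiv.symm_apply_apply,
      LinearMap.mulRight_apply, Algebra.TensorProduct.tmul_mul_tmul, one_mul]
  · intro y
    simp only [LinearMap.comp_apply, LinearEquiv.coe_coe, LinearEquiv.symm_apply_apply,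
      LinearMap.mulRight_apply, LinearMap.mulLeft_apply]
    rw [← mul_assoc, he3]
  · intro z hz
    simp only [LinearMap.comp_apply, LinearEquiv.coe_coe, LinearMap.mulLeft_apply]
    have h1 : E (B.equivFun.symm z) = 0 := by
      rw [hE3, LinearEquiv.apply_symm_apply]
      exact hz
    rw [he2 _ h1, map_zero]
  · intro y
    simp only [LinearMap.comp_apply, LinearEquiv.coe_coe, LinearEquiv.symm_apply_apply,
      LinearMap.mulRight_apply]
    rw [← hE3, map_mul, hE1, map_one, one_mul]
    have h1 : E e = 1 := he1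
    rw [h1, one_mul]

section compact

variable {K : Type} [Field K] [NumberField K] {A L : Type} [NontriviallyNormedField A]
  [NontriviallyNormedField L] (τ : ℚ →+* A) (θ : A →+* L) (σ : K →+* L) {J : Type} [Fintype J]
  (b : Basis J ℚ K) {ι : Type}

/-- the map to the points over `L` -/
noncomputable def EE (z : ι × J → A) : ι → L := fun i => ∑ j, θ (z (i, j)) * σ (b j)

theorem continuous_EE (hθ : Continuous θ) : Continuous (EE θ σ b : (ι × J → A) → ι → L) :=
  continuous_pi fun _ => continuous_finsetSum _ fun _ _ =>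
    (hθ.comp (continuous_apply _)).mul continuous_const

/-- The balanced representatives. -/
theorem exists_compact [ProperSpace A] [Finite ι] (hτ : DenseRange τ) :
    ∃ Q : Set (ι × J → A), IsCompact Q ∧ (∀ z ∈ Q, EE θ σ b z ≠ 0) ∧
      ∀ y : ι → K, y ≠ 0 → ∃ c : K, c ≠ 0 ∧
        (fun p : ι × J => τ (b.equivFun (c * y p.1) p.2)) ∈ Q := by
  have := Fintype.ofFinite ι
  obtain ⟨P₀, M, e, h1, h2, h3, h4⟩ := exists_proj τ θ σ b
  -- a rational number of large size
  obtain ⟨r, hr⟩ : ∃ r : ℚ, 1 < ‖τ r‖ := by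
    obtain ⟨a, ha⟩ := NormedField.exists_one_lt_norm A
    exact hτ.exists_mem_open (isOpen_lt continuous_const continuous_norm) ⟨a, ha⟩
  set P : (ι × J → A) →ₗ[A] (ι × J → A) :=
    { toFun := fun z p => P₀ (fun j => z (p.1, j)) p.2
      map_add' := fun z w => by
        funext p
        exact congrFun (P₀.map_add (fun j => z (p.1, j)) (fun j => w (p.1, j))) p.2
      map_smul' := fun c z => by
        funext p
        exact congrFun (P₀.map_smul c (fun j => z (p.1, j))) p.2 } with hP
  have hPap : ∀ z p, P z p = P₀ (fun j => z (p.1, j)) p.2 := fun z p => rfl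
  have hPc : Continuous P := LinearMap.continuous_on_pi P
  refine ⟨{z | 1 ≤ ‖z‖ ∧ ‖z‖ ≤ ‖τ r‖ ∧ ‖z - P z‖ ≤ ‖P z‖}, ?_, ?_, ?_⟩
  · refine (isCompact_closedBall (0 : ι × J → A) ‖τ r‖).of_isClosed_subset ?_ ?_
    · have hcl : IsClosed {z : ι × J → A | ‖z - P z‖ ≤ ‖P z‖} :=
        isClosed_le (continuous_id.sub hPc).norm hPc.norm
      exact (isClosed_le continuous_const continuous_norm).inter
        ((isClosed_le continuous_norm continuous_const).inter hcl)
    · rintro z ⟨-, hz, -⟩
      simpa using hz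
  · rintro z ⟨hz1, -, hz3⟩ hE
    have h5 : P z = 0 := by
      funext p
      rw [hPap, h3 (fun j => z (p.1, j)) (congrFun hE p.1)]
      rfl
    rw [h5, norm_zero, sub_zero] at hz3
    linarith
  · intro y hy0
    obtain ⟨i, hi⟩ := Function.ne_iff.1 hy0
    set g : (J → A) → (ι × J → A) := fun t p => M (y p.1) t p.2 with hg
    have hgc : Continuous g := continuous_pi fun p =>
      (continuous_apply p.2).comp (LinearMap.continuous_on_pi (M (y p.1)))
    have hge : P (g e) = g e := by
      funext p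
      rw [hPap]
      exact congrFun (h2 (y p.1)) p.2
    have hge0 : g e ≠ 0 := by
      intro h
      have h5 := h4 (y i)
      rw [Finset.sum_eq_zero] at h5
      · exact hi (σ.injective (by rw [← h5]; simp))
      · intro j _
        have h6 : M (y i) e j = 0 := congrFun h (i, j)
        rw [h6, map_zero, zero_mul]
    have hO : IsOpen {t : J → A | ‖g t - P (g t)‖ < ‖P (g t)‖} :=
      isOpen_lt (hgc.sub (hPc.comp hgc)).norm (hPc.comp hgc).norm
    have hd : DenseRange (Pi.map fun _ : J => τ) := DenseRange.piMap fun _ => hτ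
    obtain ⟨q, hq⟩ := hd.exists_mem_open hO ⟨e, by
      change ‖g e - P (g e)‖ < ‖P (g e)‖
      rw [hge, sub_self, norm_zero]
      exact norm_pos_iff.2 hge0⟩
    set z₀ := g (Pi.map (fun _ : J => τ) q) with hz₀
    have hq' : ‖z₀ - P z₀‖ < ‖P z₀‖ := hq
    have hz₀0 : z₀ ≠ 0 := by
      intro h
      rw [h, map_zero, norm_zero] at hq'
      exact absurd hq' (not_lt.2 (norm_nonneg _))
    set l := b.equivFun.symm q with hl
    have hz₀' : z₀ = fun p : ι × J => τ (b.equivFun (l * y p.1) p.2) := by
      funext p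
      have h5 := congrFun (h1 (y p.1) l) p.2
      have h6 : Pi.map (fun _ : J => τ) q = fun j => τ (b.equivFun l j) := by
        funext j
        rw [hl, LinearEquiv.apply_symm_apply]
        rfl
      rw [← h5, ← h6]
    obtain ⟨n, hn0, hn1, hn2, -⟩ := rescale_to_shell_zpow hr
      (lt_trans one_pos hr) hz₀0
    rw [div_self (ne_of_gt (lt_trans one_pos hr))] at hn2
    have hz : (fun p : ι × J => τ (b.equivFun ((algebraMap ℚ K (r ^ n) * l) * y p.1) p.2)) =
        τ r ^ n • z₀ := by
      funext p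
      rw [hz₀', mul_assoc, ← Algebra.smul_def, map_smul, Pi.smul_apply, smul_eq_mul, map_mul,
        map_zpow₀]
      rfl
    refine ⟨algebraMap ℚ K (r ^ n) * l, ?_, ?_⟩
    · intro h
      rw [h] at hz
      have h5 : τ r ^ n • z₀ = 0 := by
        rw [← hz]
        funext p
        simp
      rw [h5, norm_zero] at hn2
      linarith
    · rw [hz]
      refine ⟨hn2, hn1.le, ?_⟩
      rw [map_smul, ← smul_sub, norm_smul, norm_smul]
      exact mul_le_mul_of_nonneg_left hq'.le (norm_nonneg _)

end compact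

end Pool.Agent.L0h15.MZ
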