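import Mathlib
import Pool.Agent.L0h15.MZ.Proj

/-!
# From `ℚ` to number fields
-/

set_option autoImplicit false

open MvPolynomial Topology Module

namespace Pool.Agent.L0h15.MZ

section comps

variable {K : Type} [Field K] [NumberField K] {J : Type} [Fintype J] (b : Basis J ℚ K) {ι : Type}

/-- the point with the given coordinates -/
noncomputable def Phi (q : ι × J → ℚ) : ι → K := fun i => ∑ j, algebraMap ℚ K (q (i, j)) * b j

theorem Phi_equivFun (y : ι → K) : Phi b (fun p : ι × J => b.equivFun (y p.1) p.2) = y := by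
  funext i
  conv_rhs => rw [← b.sum_equivFun (y i)]
  exact Finset.sum_congr rfl fun j _ => (Algebra.smul_def _ _).symm

theorem sum_basis_eq_zero {a : J → ℚ} (h : ∑ j, algebraMap ℚ K (a j) * b j = 0) (j : J) :
    a j = 0 := by
  have h1 : ∑ j, a j • b j = 0 := by
    rw [← h]
    exact Finset.sum_congr rfl fun j _ => Algebra.smul_def _ _
  exact (Fintype.linearIndependent_iff.1 b.linearIndependent) a h1 j

theorem Phi_smul (t : ℚ) (q : ι × J → ℚ) : Phi b (t • q) = algebraMap ℚ K t • Phi b q := by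
  funext i
  simp only [Phi, Pi.smul_apply, smul_eq_mul, map_mul, Finset.mul_sum, mul_assoc]

theorem Phi_ne_zero {q : ι × J → ℚ} (hq : q ≠ 0) : Phi b q ≠ 0 := by
  intro h
  apply hq
  funext p
  exact sum_basis_eq_zero b (congrFun h p.1) p.2

/-- the components of a polynomial -/
theorem exists_comps (f : MvPolynomial ι K) : ∃ F : J → MvPolynomial (ι × J) ℚ,
    (∀ d, f.IsHomogeneous d → ∀ j, (F j).IsHomogeneous d) ∧
    ∀ q : ι × J → ℚ, eval (Phi b q) f = ∑ j, algebraMap ℚ K (eval q (F j)) * b j := by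
  classical
  set g : ι → MvPolynomial (ι × J) K := fun i => ∑ j, C (b j) * X (i, j) with hg
  set s : MvPolynomial (ι × J) K := aeval g f with hs
  set F : J → MvPolynomial (ι × J) ℚ := fun j =>
    ∑ m ∈ s.support, monomial m (b.equivFun (coeff m s) j) with hF
  have hFc : ∀ j m, coeff m (F j) = b.equivFun (coeff m s) j := by
    intro j m
    rw [hF]
    simp only [coeff_sum, coeff_monomial]
    rw [Finset.sum_ite_eq' s.support m]
    split_ifs with h
    · rfl
    · rw [notMem_support_iff.1 h, map_zero]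
      rfl
  refine ⟨F, ?_, ?_⟩
  · intro d hd j
    have h1 : s.IsHomogeneous (1 * d) := by
      refine hd.aeval g fun i => ?_
      refine IsHomogeneous.sum _ _ _ fun j _ => ?_
      rw [← zero_add 1]
      exact (isHomogeneous_C _ _).mul (isHomogeneous_X _ _)
    rw [one_mul] at h1
    intro m hm
    apply h1
    intro h
    apply hm
    rw [hFc, h, map_zero]
    rfl
  · intro q
    have h1 : eval (Phi b q) f = eval (fun p => algebraMap ℚ K (q p)) s := by
      rw [hs, aeval_def, algebraMap_eq, ← coe_eval₂Hom, ← RingHom.comp_apply]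
      congr 1
      apply MvPolynomial.ringHom_ext
      · intro a
        simp
      · intro i
        simp only [eval_X, RingHom.comp_apply, coe_eval₂Hom, eval₂_X, hg, map_sum, map_mul,
          eval_C, Phi]
        exact Finset.sum_congr rfl fun j _ => mul_comm _ _
    have h2 : s = ∑ j, C (b j) * map (algebraMap ℚ K) (F j) := by
      ext m
      rw [coeff_sum]
      conv_lhs => rw [← b.sum_equivFun (coeff m s)]
      refine Finset.sum_congr rfl fun j _ => ?_
      rw [coeff_C_mul, coeff_map, hFc, Algebra.smul_def, mul_comm]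
    rw [h1, h2, map_sum]
    refine Finset.sum_congr rfl fun j _ => ?_
    rw [map_mul, eval_C, eval_map, mul_comm]
    congr 1
    have h3 := eval₂_comp_left (algebraMap ℚ K) (RingHom.id ℚ) q (F j)
    rw [RingHom.comp_id] at h3
    exact h3.symm

end comps

section transfer

variable {K : Type} [Field K] [NumberField K] {A L : Type} [NontriviallyNormedField A]
  [NontriviallyNormedField L] (τ : ℚ →+* A) (θ : A →+* L) (σ : K →+* L) {ι : Type}

theorem EE_smul {J : Type} [Fintype J] (b : Basis J ℚ K) (c : A) (q : ι × J → ℚ) (i : ι) :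
    EE θ σ b (fun p => c * τ (q p)) i = θ c * σ (Phi b q i) := by
  have h1 : ∀ a : ℚ, θ (τ a) = σ (algebraMap ℚ K a) := by
    intro a
    have h2 : θ.comp τ = σ.comp (algebraMap ℚ K) := Subsingleton.elim _ _
    exact congrArg (fun g : ℚ →+* L => g a) h2
  simp only [EE, Phi, map_mul, map_sum, Finset.mul_sum, h1, mul_assoc]

/-- The transfer from `ℚ` to a number field. -/
theorem LIs_transfer [ProperSpace A] [Finite ι] (hτ : DenseRange τ) (hθ : Continuous θ)
    (H : ∀ (κ : Type) [Finite κ] (S : Set (MvPolynomial κ ℚ)),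
      (∀ s ∈ S, ∃ d : ℕ, s.IsHomogeneous d) → (LIs τ S).Finite)
    {S : Set (MvPolynomial ι K)} (hS : ∀ s ∈ S, ∃ d : ℕ, s.IsHomogeneous d) :
    (LIs σ S).Finite := by
  set J := Fin (finrank ℚ K) with hJ
  set b : Basis J ℚ K := finBasis ℚ K with hb
  obtain ⟨Q, hQ1, hQ2, hQ3⟩ := exists_compact (ι := ι) τ θ σ b hτ
  choose F hF1 hF2 using fun f : MvPolynomial ι K => exists_comps b f
  set S' : Set (MvPolynomial (ι × J) ℚ) := {g | ∃ s ∈ S, ∃ j, g = F s j} with hS'
  have hS'h : ∀ g ∈ S', ∃ d : ℕ, g.IsHomogeneous d := by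
    rintro _ ⟨s, hs, j, rfl⟩
    obtain ⟨d, hd⟩ := hS s hs
    exact ⟨d, hF1 s d hd j⟩
  have hpt : ∀ q : ι × J → ℚ, (∀ g ∈ S', eval q g = 0) ↔ ∀ s ∈ S, eval (Phi b q) s = 0 := by
    intro q
    constructor
    · intro h s hs
      rw [hF2]
      refine Finset.sum_eq_zero fun j _ => ?_
      rw [h _ ⟨s, hs, j, rfl⟩, map_zero, zero_mul]
    · rintro h _ ⟨s, hs, j, rfl⟩
      have h1 := h s hs
      rw [hF2] at h1
      exact sum_basis_eq_zero b h1 j
  have hfin := LI_finite_all (σ := τ) hS'h (H (ι × J) S' hS'h)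
  have hEc : Continuous (EE θ σ b : (ι × J → A) → ι → L) := continuous_EE θ σ b hθ
  refine (hfin.finite_subsets.image fun G : Set (Set (MvPolynomial (ι × J) ℚ)) =>
    {f : MvPolynomial ι K | ∀ I ∈ G, ∀ j, F f j ∈ I}).subset ?_
  rintro I₀ ⟨x, hx0, -, rfl⟩
  obtain ⟨i₀, hi₀⟩ := Function.ne_iff.1 hx0
  have hxi : x i₀ ≠ 0 := hi₀
  refine ⟨{I | ∃ z ∈ Q, (∃ c : L, c ≠ 0 ∧ EE θ σ b z = fun i => c * x i) ∧ I = LI τ S' z},
    ?_, ?_⟩
  · rintro _ ⟨z, hz, -, rfl⟩
    refine ⟨z, ?_, rfl⟩
    rintro rfl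
    apply hQ2 _ hz
    funext i
    simp [EE]
  ext f
  constructor
  · intro hf
    -- the good open sets
    set W : Set (ι × J → A) := ⋃₀ {V | IsOpen V ∧ ∀ q : ι × J → ℚ, q ≠ 0 →
      (∀ g ∈ S', eval q g = 0) → (∃ c : A, c ≠ 0 ∧ (fun p => c * τ (q p)) ∈ V) →
      ∀ j, ∀ t : ℚ, eval (t • q) (F f j) = 0} with hW
    have hWo : IsOpen W := isOpen_sUnion fun V hV => hV.1
    have hWx : ∀ z ∈ Q, (∃ c : L, c ≠ 0 ∧ EE θ σ b z = fun i => c * x i) → z ∈ W := by
      intro z hz hc
      have h1 := hf _ ⟨z, hz, hc, rfl⟩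
      choose U hU1 hU2 using h1
      have h2 : (⋂ j, U j) ∈ 𝓝 z := Filter.iInter_mem.2 hU1
      obtain ⟨V, hV1, hV2, hV3⟩ := mem_nhds_iff.1 h2
      refine ⟨V, ⟨hV2, ?_⟩, hV3⟩
      rintro q hq0 hqS ⟨c, hc0, hcV⟩ j
      exact hU2 j q hq0 hqS ⟨c, hc0, Set.mem_iInter.1 (hV1 hcV) j⟩
    -- the neighbourhood
    have hn : IsOpen {u : (ι → L) × (ι × J → A) |
        ∃ i j, u.1 i * EE θ σ b u.2 j ≠ u.1 j * EE θ σ b u.2 i} := by
      have h1 : {u : (ι → L) × (ι × J → A) |
          ∃ i j, u.1 i * EE θ σ b u.2 j ≠ u.1 j * EE θ σ b u.2 i} =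
          ⋃ i, ⋃ j, {u : (ι → L) × (ι × J → A) |
            u.1 i * EE θ σ b u.2 j ≠ u.1 j * EE θ σ b u.2 i} := by
        ext u
        simp
      rw [h1]
      refine isOpen_iUnion fun i => isOpen_iUnion fun j => isOpen_ne_fun ?_ ?_
      · exact ((continuous_apply i).comp continuous_fst).mul
          ((continuous_apply j).comp (hEc.comp continuous_snd))
      · exact ((continuous_apply j).comp continuous_fst).mul
          ((continuous_apply i).comp (hEc.comp continuous_snd))
    obtain ⟨U, V, hU1, -, hU2, hV, hUV⟩ := generalized_tube_lemma (isCompact_singleton (x := x))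
      (hQ1.diff hWo) hn (by
        rintro ⟨u, z⟩ ⟨hu, hz, hzW⟩
        rw [Set.mem_singleton_iff] at hu
        subst hu
        by_contra hcon
        simp only [Set.mem_ofPred_eq, not_exists, not_not] at hcon
        apply hzW
        refine hWx z hz ⟨EE θ σ b z i₀ / u i₀, ?_, ?_⟩
        · intro h
          rw [div_eq_zero_iff] at h
          rcases h with h | h
          · apply hQ2 z hz
            funext j
            have h1 := hcon i₀ j
            rw [h, mul_zero] at h1
            exact (mul_eq_zero.1 h1).resolve_left hxi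
          · exact hxi h
        · funext i
          rw [div_mul_eq_mul_div, eq_div_iff hxi, mul_comm, hcon i₀ i, mul_comm])
    refine ⟨U, hU1.mem_nhds (hU2 rfl), ?_⟩
    rintro y hy0 hyS ⟨c, hc0, hcU⟩
    obtain ⟨l, hl0, hlQ⟩ := hQ3 y hy0
    set q : ι × J → ℚ := fun p => b.equivFun (l * y p.1) p.2 with hq
    have hPhi : Phi b q = l • y := Phi_equivFun b (fun i => l * y i)
    have hly : l • y ≠ 0 := smul_ne_zero hl0 hy0
    have hq0 : q ≠ 0 := by
      intro h
      apply hly
      rw [← hPhi, h]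
      funext i
      simp [Phi]
    have hqS : ∀ g ∈ S', eval q g = 0 := by
      rw [hpt]
      intro s hs
      obtain ⟨d, hd⟩ := hS s hs
      rw [hPhi, eval_smul' hd, hyS s hs, mul_zero]
    have hzW : (fun p => τ (q p)) ∈ W := by
      by_contra hzW
      obtain ⟨i, j, hij⟩ := hUV (Set.mk_mem_prod hcU (hV ⟨hlQ, hzW⟩))
      apply hij
      have h1 : ∀ i, EE θ σ b (fun p => τ (q p)) i = σ l * σ (y i) := by
        intro i
        have h2 := EE_smul τ θ σ b 1 q i
        simp only [one_mul, map_one] at h2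
        rw [h2, hPhi, Pi.smul_apply, smul_eq_mul, map_mul]
      change c * σ (y i) * EE θ σ b (fun p => τ (q p)) j =
        c * σ (y j) * EE θ σ b (fun p => τ (q p)) i
      rw [h1, h1]
      ring
    obtain ⟨V', ⟨-, hV'⟩, hzV'⟩ := hzW
    have h1 := hV' q hq0 hqS ⟨1, one_ne_zero, by simpa using hzV'⟩
    have h2 : ∀ t ∈ Set.range (fun t : ℚ => algebraMap ℚ K t * l), eval (t • y) f = 0 := by
      rintro _ ⟨t, rfl⟩
      simp only
      rw [← smul_smul, ← hPhi, ← Phi_smul, hF2]
      refine Finset.sum_eq_zero fun j _ => ?_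
      rw [h1 j t, map_zero, zero_mul]
    have h3 : (Set.range (fun t : ℚ => algebraMap ℚ K t * l)).Infinite := by
      refine Set.infinite_range_of_injective fun t t' h => ?_
      exact (algebraMap ℚ K).injective (mul_right_cancel₀ hl0 h)
    rw [forall_smul_iff]
    exact comp_eq_zero f y h3 h2
  · rintro ⟨U, hU, hf⟩ _ ⟨z, hz, ⟨c₀, hc₀, hE⟩, rfl⟩ j
    have hg : Continuous fun (w : ι × J → A) => fun i => c₀⁻¹ * EE θ σ b w i :=
      continuous_pi fun i => continuous_const.mul ((continuous_apply i).comp hEc)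
    refine ⟨(fun (w : ι × J → A) => fun i => c₀⁻¹ * EE θ σ b w i) ⁻¹' U,
      hg.continuousAt ?_, ?_⟩
    · have h1 : (fun i => c₀⁻¹ * EE θ σ b z i) = x := by
        funext i
        rw [hE, ← mul_assoc, inv_mul_cancel₀ hc₀, one_mul]
      rw [h1]
      exact hU
    · rintro q hq0 hqS ⟨c, hc0, hcU⟩ t
      have h1 := hf (Phi b q) (Phi_ne_zero b hq0) ((hpt q).1 hqS) ⟨c₀⁻¹ * θ c,
        mul_ne_zero (inv_ne_zero hc₀) ((map_ne_zero θ).2 hc0), by
          have h2 : (fun i => c₀⁻¹ * EE θ σ b (fun p => c * τ (q p)) i) ∈ U := hcU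
          convert h2 using 1
          funext i
          rw [EE_smul, mul_assoc]⟩ (algebraMap ℚ K t)
      rw [← Phi_smul, hF2] at h1
      exact sum_basis_eq_zero b h1 j

end transfer

section closure

/-- the completion of `ℚ` inside of a completion of a number field -/
theorem exists_rat_completion {K : Type} [Field K] [NumberField K] {L : Type}
    [NontriviallyNormedField L] [CompleteSpace L] (σ : K →+* L) (hσ : DenseRange σ) :
    ∃ (A : Type) (_ : NontriviallyNormedField A) (_ : CompleteSpace A) (τ : ℚ →+* A)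
      (θ : A →+* L), DenseRange τ ∧ Continuous θ := by
  have : CharZero L := charZero_of_injective_ringHom σ.injective
  have hnt := Pool.Agent.W279.Tri.ratAbs_nontrivial σ hσ
  set F : Subfield L := (algebraMap ℚ L).fieldRange.topologicalClosure with hF
  have hFc : IsClosed (F : Set L) := Subfield.isClosed_topologicalClosure _
  have hQF : ∀ x : ℚ, (x : L) ∈ F := fun x =>
    Subfield.le_topologicalClosure _ ⟨x, by simp⟩
  have hFd : (F : Set L) ⊆ closure (Set.range (fun x : ℚ => (x : L))) := by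
    intro x hx
    have h1 : x ∈ closure ((algebraMap ℚ L).fieldRange : Set L) := hx
    refine closure_mono ?_ h1
    rintro _ ⟨y, rfl⟩
    exact ⟨y, by simp⟩
  obtain ⟨r, hr⟩ : ∃ r : ℚ, 1 < ‖(r : L)‖ := by
    obtain ⟨x, hx, hx1⟩ := hnt
    rw [Pool.Agent.W279.Tri.ratAbs_apply] at hx1
    rcases lt_or_gt_of_ne hx1 with h | h
    · refine ⟨x⁻¹, ?_⟩
      push_cast
      rw [norm_inv]
      exact (one_lt_inv₀ (by simpa using hx)).2 h
    · exact ⟨x, h⟩
  let instF : NontriviallyNormedField F :=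
    { SubfieldClass.toNormedField F with
      non_trivial := ⟨⟨(r : L), hQF r⟩, hr⟩ }
  have hcs : CompleteSpace F := hFc.completeSpace_coe
  refine ⟨F, instF, hcs, algebraMap ℚ F, F.subtype, ?_, continuous_subtype_val⟩
  intro x
  have h2 : (x : L) ∈ closure (Set.range (fun x : ℚ => (x : L))) := hFd x.2
  rw [mem_closure_iff_nhds_basis Metric.nhds_basis_ball] at h2 ⊢
  intro ε hε
  obtain ⟨_, ⟨y, rfl⟩, hy⟩ := h2 ε hε
  refine ⟨_, ⟨y, rfl⟩, ?_⟩
  rw [Metric.mem_ball] at hy ⊢
  have h3 : ((algebraMap ℚ F y : F) : L) = (y : L) := by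
    simp
  rw [Subtype.dist_eq, h3]
  exact hy

end closure

end Pool.Agent.L0h15.MZ
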